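import Pool.Agent.Helper67.DO.StmtsE1

/-!
# E12: the Lie algebra differential on wedges of functions
-/

namespace Pool.Agent.Helper67.DO

open scoped BigOperators Real

noncomputable section

theorem e12_trace {n : ℕ} (M : Matrix (Fin n) (Fin n) ℂ) (d : Fin n → ℂ) :
    ∑ i, (M.updateRow i (fun j => M i j * d j)).det = (∑ j, d j) * M.det := by
  have h1 : ∀ i, (M.updateRow i (fun j => M i j * d j)).det
      = ∑ j, M.adjugate j i * (M i j * d j) := by
    intro i
    rw [← Matrix.cramer_transpose_apply, Matrix.cramer_eq_adjugate_mulVec, ← Matrix.adjugate_transpose]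
    rfl
  rw [Finset.sum_congr rfl fun i _ => h1 i, Finset.sum_comm, Finset.sum_mul]
  refine Finset.sum_congr rfl fun j _ => ?_
  have h2 : (M.adjugate * M) j j = M.det := by
    rw [Matrix.adjugate_mul, Matrix.smul_apply, Matrix.one_apply_eq, smul_eq_mul, mul_one]
  rw [← h2, Matrix.mul_apply, Finset.mul_sum]
  refine Finset.sum_congr rfl fun i _ => ?_
  ring

/-- `det` as an alternating function of the rows -/
abbrev e12_D (n : ℕ) : (Fin n → ℂ) [⋀^Fin n]→ₗ[ℂ] ℂ := Matrix.detRowAlternating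

theorem e12_WW {n : ℕ} (v : Fin n → ℂ → ℂ) (z : Fin n → ℂ) :
    WW v z = e12_D n (fun c j => v c (z j)) := rfl

theorem e12_col {n : ℕ} (v : Fin (n + 1) → ℂ → ℂ) (z : Fin n → ℂ) (k : Fin (n + 1)) (t : ℂ) :
    WW v (k.insertNth t z)
      = ∑ c : Fin (n + 1), (-1 : ℂ) ^ ((c : ℕ) + (k : ℕ)) * v c t * WW (c.removeNth v) z := by
  unfold WW
  rw [Matrix.det_succ_column _ k]
  refine Finset.sum_congr rfl fun c _ => ?_
  rw [Matrix.of_apply, Fin.insertNth_apply_same]
  have : (Matrix.of fun i j => v i ((k.insertNth t z : Fin (n + 1) → ℂ) j)).submatrix c.succAbove k.succAbove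
      = Matrix.of fun i j => (c.removeNth v) i (z j) := by
    ext i j
    simp [Matrix.submatrix_apply, Matrix.of_apply, Fin.insertNth_apply_succAbove, Fin.removeNth]
  rw [this]

theorem e12_deriv {n : ℕ} (U : Set ℂ) (hU : IsOpen U) (v : Fin (n + 1) → ℂ → ℂ)
    (hv : ∀ i, DifferentiableOn ℂ (v i) U) (z : Fin n → ℂ) (k : Fin (n + 1)) (w : ℂ) (hw : w ∈ U) :
    deriv (fun t : ℂ => WW v (k.insertNth t z)) w
      = ∑ c : Fin (n + 1), (-1 : ℂ) ^ ((c : ℕ) + (k : ℕ)) * deriv (v c) w * WW (c.removeNth v) z := by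
  have h : (fun t : ℂ => WW v (k.insertNth t z))
      = fun t => ∑ c : Fin (n + 1), (-1 : ℂ) ^ ((c : ℕ) + (k : ℕ)) * v c t * WW (c.removeNth v) z :=
    funext fun t => e12_col v z k t
  rw [h]
  have hd : ∀ c : Fin (n + 1), HasDerivAt (fun t => (-1 : ℂ) ^ ((c : ℕ) + (k : ℕ)) * v c t * WW (c.removeNth v) z)
      ((-1 : ℂ) ^ ((c : ℕ) + (k : ℕ)) * deriv (v c) w * WW (c.removeNth v) z) w := by
    intro c
    have h1 : HasDerivAt (v c) (deriv (v c) w) w :=
      ((hv c).differentiableAt (hU.mem_nhds hw)).hasDerivAt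
    exact (h1.const_mul _).mul_const _
  exact (HasDerivAt.fun_sum fun c _ => hd c).deriv

theorem e12_sum_ne {n : ℕ} (b : Fin (n + 1)) (f : Fin (n + 1) → ℂ) :
    ∑ a, (if a = b then 0 else f a) = ∑ a' : Fin n, f (b.succAbove a') := by
  rw [Fin.sum_univ_succAbove _ b, if_pos rfl, zero_add]
  refine Finset.sum_congr rfl fun a' _ => ?_
  rw [if_neg (Fin.succAbove_ne b a')]

/-- the row of values of `f` -/
abbrev e12_r {n : ℕ} (z : Fin n → ℂ) (f : ℂ → ℂ) : Fin n → ℂ := fun j => f (z j)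

/-- `X(a,b)` -/
def e12_X {n : ℕ} (v : Fin (n + 1) → ℂ → ℂ) (z : Fin n → ℂ) (a b : Fin (n + 1)) : ℂ :=
  e12_D n (b.removeNth (Function.update (fun c j => v c (z j)) a (fun j => v a (z j) * deriv (v b) (z j))))

theorem e12_xsum {n : ℕ} (v : Fin (n + 1) → ℂ → ℂ) (z : Fin n → ℂ) (b : Fin (n + 1)) :
    ∑ a, (if a = b then 0 else e12_X v z a b) = (∑ j, deriv (v b) (z j)) * WW (b.removeNth v) z := by
  rw [e12_sum_ne]
  have h := e12_trace (Matrix.of fun i j => (b.removeNth v) i (z j)) (fun j => deriv (v b) (z j))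
  unfold WW
  rw [← h]
  refine Finset.sum_congr rfl fun a' _ => ?_
  unfold e12_X
  rw [Fin.removeNth_update_succAbove]
  rfl

theorem e12_sign {n : ℕ} (v : Fin (n + 1) → ℂ → ℂ) (z : Fin n → ℂ) (a b : Fin (n + 1)) (hab : a ≠ b)
    (x : Fin n → ℂ) :
    (-1 : ℂ) ^ (a : ℕ) * e12_D n (a.removeNth (Function.update (fun c j => v c (z j)) b x))
      = - ((-1 : ℂ) ^ (b : ℕ) * e12_D n (b.removeNth (Function.update (fun c j => v c (z j)) a x))) := by
  set R : Fin (n + 1) → Fin n → ℂ := fun c j => v c (z j) with hR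
  set w : Fin (n + 1) → Fin n → ℂ := Function.update (Function.update R a x) b x with hw
  have hwa : w a = x := by
    rw [hw, Function.update_of_ne hab, Function.update_self]
  have hwb : w b = x := by
    rw [hw, Function.update_self]
  have h := AlternatingMap.neg_one_pow_smul_map_removeNth_add_eq_zero_of_eq (e12_D n) (v := w) (i := a) (j := b)
    (by rw [hwa, hwb]) hab
  have h1 : a.removeNth w = a.removeNth (Function.update R b x) := by
    rw [hw, Function.update_comm hab, Fin.removeNth_update]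
  have h2 : b.removeNth w = b.removeNth (Function.update R a x) := by
    rw [hw, Fin.removeNth_update]
  rw [h1, h2] at h
  have e1 : ∀ (k : ℕ) (y : ℂ), ((-1 : ℤ) ^ k) • y = (-1 : ℂ) ^ k * y := by
    intro k y
    rw [zsmul_eq_mul]
    push_cast
    ring
  rw [e1, e1] at h
  exact eq_neg_of_add_eq_zero_left h

theorem e12_brk {n : ℕ} (v : Fin (n + 1) → ℂ → ℂ) (z : Fin n → ℂ) (a b : Fin (n + 1)) (hab : a ≠ b) :
    WW (b.removeNth (Function.update v a (brk (v a) (v b)))) z
      = e12_X v z a b - e12_D n (b.removeNth (Function.update (fun c j => v c (z j)) a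
          (fun j => v b (z j) * deriv (v a) (z j)))) := by
  obtain ⟨a', rfl⟩ := Fin.exists_succAbove_eq hab
  unfold e12_X
  rw [e12_WW, Fin.removeNth_update_succAbove, Fin.removeNth_update_succAbove, Fin.removeNth_update_succAbove,
    ← AlternatingMap.map_update_sub]
  refine congrArg _ ?_
  funext c j
  by_cases hc : c = a'
  · subst hc
    rw [Function.update_self, Function.update_self]
    rfl
  · rw [Function.update_of_ne hc, Function.update_of_ne hc]
    rfl

/-- E12 -/
theorem st_E12 : ST_E12 := by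
  intro q U hU v hv z hz
  unfold dd
  -- left hand side
  have hL : ∑ i : Fin (q + 1), (-1 : ℂ) ^ (i : ℕ) * deriv (fun t : ℂ => WW v (i.succ.insertNth t z)) (z i)
      = ∑ b : Fin (q + 2), (-1 : ℂ) ^ ((b : ℕ) + 1) * ((∑ j, deriv (v b) (z j)) * WW (b.removeNth v) z) := by
    have h1 : ∀ i : Fin (q + 1), (-1 : ℂ) ^ (i : ℕ) * deriv (fun t : ℂ => WW v (i.succ.insertNth t z)) (z i)
        = ∑ b : Fin (q + 2), (-1 : ℂ) ^ ((b : ℕ) + 1) * (deriv (v b) (z i) * WW (b.removeNth v) z) := by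
      intro i
      rw [e12_deriv U hU v hv z i.succ (z i) (hz i), Finset.mul_sum]
      refine Finset.sum_congr rfl fun b _ => ?_
      have e : (-1 : ℂ) ^ ((b : ℕ) + (i.succ : ℕ)) = (-1 : ℂ) ^ (i : ℕ) * (-1 : ℂ) ^ ((b : ℕ) + 1) := by
        rw [Fin.val_succ, ← pow_add]
        congr 1
        ring
      have e2 : (-1 : ℂ) ^ (i : ℕ) * (-1 : ℂ) ^ (i : ℕ) = 1 := by
        rw [← mul_pow]; norm_num
      rw [e]
      linear_combination ((-1 : ℂ) ^ ((b : ℕ) + 1) * deriv (v b) (z i) * WW (b.removeNth v) z) * e2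
    rw [Finset.sum_congr rfl fun i _ => h1 i, Finset.sum_comm]
    refine Finset.sum_congr rfl fun b _ => ?_
    rw [Finset.sum_mul, Finset.mul_sum]
  rw [hL]
  have hL2 : ∀ b : Fin (q + 2), (-1 : ℂ) ^ ((b : ℕ) + 1) * ((∑ j, deriv (v b) (z j)) * WW (b.removeNth v) z)
      = ∑ a : Fin (q + 2), ((if a < b then (-1 : ℂ) ^ ((b : ℕ) + 1) * e12_X v z a b else 0)
        + (if b < a then (-1 : ℂ) ^ ((b : ℕ) + 1) * e12_X v z a b else 0)) := by
    intro b
    rw [← e12_xsum, Finset.mul_sum]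
    refine Finset.sum_congr rfl fun a _ => ?_
    rcases lt_trichotomy a b with h | h | h
    · rw [if_neg h.ne, if_pos h, if_neg (not_lt.2 h.le), add_zero]
    · rw [if_pos h, if_neg (by rw [h]; exact lt_irrefl _), if_neg (by rw [h]; exact lt_irrefl _), mul_zero, add_zero]
    · rw [if_neg h.ne', if_neg (not_lt.2 h.le), if_pos h, zero_add]
  rw [Finset.sum_congr rfl fun b _ => hL2 b]
  simp only [Finset.sum_add_distrib]
  -- swap the first double sum, keep the second
  rw [Finset.sum_comm, ← Finset.sum_add_distrib]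
  refine Finset.sum_congr rfl fun a _ => ?_
  rw [← Finset.sum_add_distrib]
  refine Finset.sum_congr rfl fun b _ => ?_
  by_cases h : a < b
  · rw [if_pos h, if_pos h, if_pos h, e12_brk v z a b h.ne]
    have hs := e12_sign v z a b h.ne (fun j => v b (z j) * deriv (v a) (z j))
    unfold e12_X
    rw [pow_succ, pow_succ]
    linear_combination -hs
  · rw [if_neg h, if_neg h, if_neg h, add_zero]

end

end Pool.Agent.Helper67.DO
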