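import Pool.Agent.Helper67.DO.StmtsE2
import Pool.Agent.Helper67.DO.BaseE
import Pool.Agent.Helper89.DO.SCV
import Pool.Agent.Helper38.DO.Sev

/-!
# E14: averages over rotations
-/

namespace Pool.Agent.Helper67.DO

open scoped BigOperators Real Topology
open MeasureTheory Set Metric

noncomputable section

theorem e14_St {s : ℝ} {z : ℂ} (hz : z ∈ St s) (t : ℝ) : z + (t : ℂ) ∈ St s := by
  have h : |z.im| < s := hz
  show |(z + (t : ℂ)).im| < s
  simpa using h

theorem e14_PU {q : ℕ} {s : ℝ} {z : Fin q → ℂ} (hz : z ∈ PU q (St s)) (t : ℝ) :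
    (fun i => z i + (t : ℂ)) ∈ PU q (St s) := fun i => e14_St (hz i) t

theorem e14_cont {q : ℕ} {s : ℝ} {F : (Fin q → ℂ) → ℂ} (hF : BO q (St s) F) :
    ContinuousOn (fun p : (Fin q → ℂ) × ℝ => F (fun i => p.1 i + (p.2 : ℂ)))
      (PU q (St s) ×ˢ (Set.univ : Set ℝ)) := by
  have h1 : ContinuousOn F (PU q (St s)) := hF.hol.continuousOn
  refine h1.comp (f := fun p : (Fin q → ℂ) × ℝ => (fun i => p.1 i + (p.2 : ℂ))) ?_ ?_
  · exact (continuous_pi fun i => by fun_prop).continuousOn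
  · intro p hp
    exact e14_PU hp.1 p.2

theorem e14_cont1 {q : ℕ} {s : ℝ} {F : (Fin q → ℂ) → ℂ} (hF : BO q (St s) F) {z : Fin q → ℂ}
    (hz : z ∈ PU q (St s)) : Continuous (fun t : ℝ => F (fun i => z i + (t : ℂ))) := by
  have h1 : ContinuousOn F (PU q (St s)) := hF.hol.continuousOn
  refine h1.comp_continuous (continuous_pi fun i => by fun_prop) fun t => e14_PU hz t

theorem e14_int {q : ℕ} {s : ℝ} {F : (Fin q → ℂ) → ℂ} (hF : BO q (St s) F) {z : Fin q → ℂ}
    (hz : z ∈ PU q (St s)) (a b : ℝ) :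
    IntervalIntegrable (fun t : ℝ => F (fun i => z i + (t : ℂ))) volume a b :=
  (e14_cont1 hF hz).intervalIntegrable a b

theorem e14_diff {q : ℕ} {s : ℝ} {F : (Fin q → ℂ) → ℂ} (hF : BO q (St s) F) (t : ℝ) :
    DifferentiableOn ℂ (fun y : Fin q → ℂ => F (fun i => y i + (t : ℂ))) (PU q (St s)) := by
  refine hF.hol.comp (f := fun y : Fin q → ℂ => (fun i => y i + (t : ℂ))) ?_ fun y hy => e14_PU hy t
  fun_prop

/-- the derivative of a translate -/
theorem e14_fderiv {q : ℕ} (F : (Fin q → ℂ) → ℂ) (t : ℝ) (z : Fin q → ℂ) :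
    fderiv ℂ (fun y : Fin q → ℂ => F (fun i => y i + (t : ℂ))) z = fderiv ℂ F (fun i => z i + (t : ℂ)) :=
  fderiv_comp_add_right (f := F) (x := z) (fun _ => (t : ℂ))

theorem e14_param {q : ℕ} {s : ℝ} {F : (Fin q → ℂ) → ℂ} (hF : BO q (St s) F) {z : Fin q → ℂ}
    (hz : z ∈ PU q (St s)) :
    ContinuousOn (fun t : ℝ => fderiv ℂ F (fun i => z i + (t : ℂ))) (uIcc 0 1) ∧
      HasFDerivAt (Av q F) (∫ t in (0 : ℝ)..1, fderiv ℂ F (fun i => z i + (t : ℂ))) z := by
  have h := Pool.Agent.Helper38.DO.sev_param (isOpen_PU q (isOpen_St s)) (a := 0) (b := 1)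
    (f := fun (y : Fin q → ℂ) (t : ℝ) => F (fun i => y i + (t : ℂ)))
    ((e14_cont hF).mono (Set.prod_mono subset_rfl (Set.subset_univ _)))
    (fun t _ => e14_diff hF t) hz
  simp only [e14_fderiv] at h
  exact h

/-- simultaneous translation by `1` -/
theorem e14_per {q : ℕ} {s : ℝ} {F : (Fin q → ℂ) → ℂ} (hF : BO q (St s) F) {z : Fin q → ℂ}
    (hz : z ∈ PU q (St s)) : F (fun i => z i + 1) = F z := by
  classical
  have key : ∀ S : Finset (Fin q), F (fun i => if i ∈ S then z i + 1 else z i) = F z := by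
    intro S
    induction S using Finset.induction_on with
    | empty => simp
    | insert a S ha ih =>
      have hw : (fun i => if i ∈ S then z i + 1 else z i) ∈ PU q (St s) := by
        intro i
        by_cases hi : i ∈ S
        · simp only [hi, if_true]
          simpa using e14_St (hz i) 1
        · simp only [hi, if_false]
          exact hz i
      have h1 := hF.per _ hw a
      rw [ih] at h1
      rw [← h1]
      congr 1
      funext i
      by_cases hi : i = a
      · subst hi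
        simp [ha]
      · simp [hi]
  simpa using key Finset.univ

theorem e14_periodic {q : ℕ} {s : ℝ} {F : (Fin q → ℂ) → ℂ} (hF : BO q (St s) F) {z : Fin q → ℂ}
    (hz : z ∈ PU q (St s)) : Function.Periodic (fun t : ℝ => F (fun i => z i + (t : ℂ))) 1 := by
  intro t
  have h := e14_per hF (e14_PU hz t)
  show F (fun i => z i + ((t + 1 : ℝ) : ℂ)) = F (fun i => z i + (t : ℂ))
  rw [← h]
  congr 1
  funext i
  push_cast
  ring

theorem e14_norm {q : ℕ} {s : ℝ} {F : (Fin q → ℂ) → ℂ} {M : ℝ}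
    (hM : ∀ z ∈ PU q (St s), ‖F z‖ ≤ M) {z : Fin q → ℂ} (hz : z ∈ PU q (St s)) : ‖Av q F z‖ ≤ M := by
  have h := intervalIntegral.norm_integral_le_of_norm_le_const (a := 0) (b := 1) (C := M)
    (f := fun t : ℝ => F (fun i => z i + (t : ℂ))) (fun t _ => hM _ (e14_PU hz t))
  simpa [Av] using h

theorem e14_BO {q : ℕ} {s : ℝ} {F : (Fin q → ℂ) → ℂ} (hF : BO q (St s) F) : BO q (St s) (Av q F) where
  hol := fun _ hz => (e14_param hF hz).2.differentiableAt.differentiableWithinAt
  per z hz i := by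
    unfold Av
    refine intervalIntegral.integral_congr fun t _ => ?_
    have h := hF.per _ (e14_PU hz t) i
    show F (fun j => Function.update z i (z i + 1) j + (t : ℂ)) = F (fun j => z j + (t : ℂ))
    rw [← h]
    congr 1
    funext j
    by_cases hj : j = i
    · subst hj
      simp
      ring
    · simp [hj]
  alt z hz σ := by
    unfold Av
    rw [← intervalIntegral.integral_const_mul]
    refine intervalIntegral.integral_congr fun t _ => ?_
    exact hF.alt _ (e14_PU hz t) σ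
  bdd := by
    obtain ⟨C, hC⟩ := hF.bdd
    exact ⟨C, fun z hz => e14_norm hC hz⟩

theorem e14_lin {q : ℕ} {s : ℝ} {F G : (Fin q → ℂ) → ℂ} (c : ℂ) (hF : BO q (St s) F) (hG : BO q (St s) G)
    {z : Fin q → ℂ} (hz : z ∈ PU q (St s)) :
    Av q (fun x => c * F x + G x) z = c * Av q F z + Av q G z := by
  unfold Av
  rw [← intervalIntegral.integral_const_mul, ← intervalIntegral.integral_add]
  · exact (e14_int hF hz 0 1).const_mul c
  · exact e14_int hG hz 0 1

/-- the value of the derivative in direction of one variable -/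
theorem e14_insert {q : ℕ} {s : ℝ} {F : (Fin (q + 1) → ℂ) → ℂ} (hF : DifferentiableOn ℂ F (PU (q + 1) (St s)))
    {z : Fin q → ℂ} (hz : z ∈ PU q (St s)) (i : Fin (q + 1)) {t : ℂ} (ht : t ∈ St s) :
    deriv (fun t : ℂ => F (i.insertNth t z)) t = fderiv ℂ F (i.insertNth t z) (Pi.single i 1) := by
  have h1 : HasFDerivAt F (fderiv ℂ F (i.insertNth t z)) (i.insertNth (α := fun _ => ℂ) t z) :=
    (hF.differentiableAt ((isOpen_PU (q + 1) (isOpen_St s)).mem_nhds (mem_PU_insert hz ht i))).hasFDerivAt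
  exact (h1.comp_hasDerivAt t (hasDerivAt_insert z i t)).deriv

theorem e14_insert_add {q : ℕ} (z : Fin q → ℂ) (i : Fin (q + 1)) (a t : ℂ) :
    (i.insertNth (α := fun _ => ℂ) (a + t) (fun j => z j + t)) = fun j => i.insertNth (α := fun _ => ℂ) a z j + t := by
  funext j
  refine Fin.succAboveCases i ?_ (fun k => ?_) j
  · simp
  · simp

theorem e14_dd {q : ℕ} {s : ℝ} {F : (Fin (q + 1) → ℂ) → ℂ} (hF : BO (q + 1) (St s) F)
    {z : Fin q → ℂ} (hz : z ∈ PU q (St s)) : dd q (Av (q + 1) F) z = Av q (dd q F) z := by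
  have hA := (e14_BO hF).hol
  have hw : ∀ i : Fin q, (i.succ.insertNth (α := fun _ => ℂ) (z i) z) ∈ PU (q + 1) (St s) :=
    fun i => mem_PU_insert hz (hz i) i.succ
  have hval : ∀ (t : ℝ) (i : Fin q),
      deriv (fun u : ℂ => F (i.succ.insertNth u (fun j => z j + (t : ℂ)))) (z i + (t : ℂ))
        = fderiv ℂ F (fun j => i.succ.insertNth (α := fun _ => ℂ) (z i) z j + (t : ℂ)) (Pi.single i.succ 1) := by
    intro t i
    rw [e14_insert hF.hol (e14_PU hz t) i.succ (e14_St (hz i) t), e14_insert_add]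
  have hi : ∀ i : Fin q, IntervalIntegrable (fun t : ℝ =>
      (-1 : ℂ) ^ (i : ℕ) * fderiv ℂ F (fun j => i.succ.insertNth (α := fun _ => ℂ) (z i) z j + (t : ℂ))
        (Pi.single i.succ 1)) volume 0 1 := by
    intro i
    have h1 := (e14_param hF (hw i)).1
    have h2 : ContinuousOn (fun t : ℝ =>
      (-1 : ℂ) ^ (i : ℕ) * fderiv ℂ F (fun j => i.succ.insertNth (α := fun _ => ℂ) (z i) z j + (t : ℂ))
        (Pi.single i.succ 1)) (uIcc 0 1) :=
      continuousOn_const.mul (h1.clm_apply continuousOn_const)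
    exact h2.intervalIntegrable
  have hR : Av q (dd q F) z = ∑ i : Fin q, ∫ t in (0 : ℝ)..1,
      (-1 : ℂ) ^ (i : ℕ) * fderiv ℂ F (fun j => i.succ.insertNth (α := fun _ => ℂ) (z i) z j + (t : ℂ))
        (Pi.single i.succ 1) := by
    rw [← intervalIntegral.integral_finsetSum fun i _ => hi i]
    unfold Av dd
    refine intervalIntegral.integral_congr fun t _ => ?_
    refine Finset.sum_congr rfl fun i _ => ?_
    show (-1 : ℂ) ^ (i : ℕ) * deriv (fun u : ℂ => F (i.succ.insertNth u (fun j => z j + (t : ℂ)))) (z i + (t : ℂ)) = _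
    rw [hval t i]
  rw [hR]
  unfold dd
  refine Finset.sum_congr rfl fun i _ => ?_
  rw [intervalIntegral.integral_const_mul]
  congr 1
  rw [e14_insert hA hz i.succ (hz i), (e14_param hF (hw i)).2.fderiv,
    ContinuousLinearMap.intervalIntegral_apply]
  exact (e14_param hF (hw i)).1.intervalIntegrable

theorem e14_wd {q : ℕ} {s : ℝ} {F : (Fin q → ℂ) → ℂ} (hF : BO q (St s) F)
    {z : Fin (q + 1) → ℂ} (hz : z ∈ PU (q + 1) (St s)) :
    Av (q + 1) (wd (fun _ => 1) q F) z = wd (fun _ => 1) q (Av q F) z := by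
  have hr : ∀ i : Fin (q + 1), i.removeNth z ∈ PU q (St s) := fun i j => hz _
  unfold wd Av
  rw [intervalIntegral.integral_finsetSum]
  · refine Finset.sum_congr rfl fun i _ => ?_
    rw [← intervalIntegral.integral_const_mul]
    rfl
  · intro i _
    exact (e14_int hF (hr i) 0 1).const_mul ((-1 : ℂ) ^ (i : ℕ) * 1)

theorem e14_shf {q : ℕ} {s : ℝ} {F : (Fin q → ℂ) → ℂ} (hF : BO q (St s) F) (t : ℝ)
    {z : Fin q → ℂ} (hz : z ∈ PU q (St s)) :
    Av q (shf t F) z = Av q F z ∧ shf t (Av q F) z = Av q F z := by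
  have h1 : ∫ u in (0 : ℝ)..1, F (fun i => z i + ((u + t : ℝ) : ℂ)) = ∫ u in (0 : ℝ)..1, F (fun i => z i + (u : ℂ)) := by
    rw [intervalIntegral.integral_comp_add_right (fun u : ℝ => F (fun i => z i + (u : ℂ))) t]
    have h2 := (e14_periodic hF hz).intervalIntegral_add_eq t 0
    rw [zero_add, add_comm 1 t, h2, zero_add]
  constructor
  · unfold Av shf
    rw [← h1]
    refine intervalIntegral.integral_congr fun u _ => ?_
    show F _ = F _
    congr 1
    funext i
    push_cast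
    ring
  · unfold Av shf
    rw [← h1]
    refine intervalIntegral.integral_congr fun u _ => ?_
    show F _ = F _
    congr 1
    funext i
    push_cast
    ring

/-- the derivative along the diagonal -/
theorem e14_hasDeriv {q : ℕ} {s : ℝ} {F : (Fin q → ℂ) → ℂ} (hF : BO q (St s) F)
    {z : Fin q → ℂ} (hz : z ∈ PU q (St s)) (t : ℝ) :
    HasDerivAt (fun t : ℝ => F (fun i => z i + (t : ℂ)))
      (fderiv ℂ F (fun i => z i + (t : ℂ)) (fun _ => 1)) t := by
  have h1 : HasFDerivAt F (fderiv ℂ F (fun i => z i + (t : ℂ))) (fun i => z i + (t : ℂ)) :=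
    (hF.hol.differentiableAt ((isOpen_PU q (isOpen_St s)).mem_nhds (e14_PU hz t))).hasFDerivAt
  have h2 : HasDerivAt (fun t : ℝ => (fun i : Fin q => z i + (t : ℂ))) (fun _ => 1) t := by
    rw [hasDerivAt_pi]
    intro i
    exact (Complex.ofRealCLM.hasDerivAt.const_add (z i))
  exact (h1.restrictScalars ℝ).comp_hasDerivAt t h2

theorem e14_kill (h3 : ST_E3) {q : ℕ} {s : ℝ} {F : (Fin (q + 1) → ℂ) → ℂ} (hF : BO (q + 1) (St s) F)
    {z : Fin (q + 1) → ℂ} (hz : z ∈ PU (q + 1) (St s)) :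
    Av (q + 1) (fun x => dd (q + 1) (wd (fun _ => 1) (q + 1) F) x + wd (fun _ => 1) q (dd q F) x) z = 0 := by
  have hPer : Per (St s) := fun z => by simp [St]
  have hval : ∀ t : ℝ, dd (q + 1) (wd (fun _ => 1) (q + 1) F) (fun i => z i + (t : ℂ))
      + wd (fun _ => 1) q (dd q F) (fun i => z i + (t : ℂ))
      = fderiv ℂ F (fun i => z i + (t : ℂ)) (fun _ => 1) := by
    intro t
    rw [h3 q (St s) (fun _ => 1) (isOpen_St s) hPer (differentiableOn_const 1) F hF _ (e14_PU hz t),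
      scv_fderiv_eq (PU (q + 1) (St s)) (isOpen_PU _ (isOpen_St s)) F hF.hol _ (e14_PU hz t)]
    refine Finset.sum_congr rfl fun j _ => ?_
    simp [pd]
  have e : Av (q + 1) (fun x => dd (q + 1) (wd (fun _ => 1) (q + 1) F) x + wd (fun _ => 1) q (dd q F) x) z
      = ∫ t in (0 : ℝ)..1, fderiv ℂ F (fun i => z i + (t : ℂ)) (fun _ => 1) := by
    unfold Av
    exact intervalIntegral.integral_congr fun t _ => hval t
  rw [e, intervalIntegral.integral_eq_sub_of_hasDerivAt (f := fun t : ℝ => F (fun i => z i + (t : ℂ)))]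
  · have h := e14_periodic hF hz 0
    simp only [zero_add] at h
    exact sub_eq_zero.2 h
  · intro t _
    exact e14_hasDeriv hF hz t
  · exact ((e14_param hF hz).1.clm_apply continuousOn_const).intervalIntegrable

/-- Riemann sums of Lipschitz functions -/
theorem e14_riemann {g : ℝ → ℂ} {L : ℝ} (hg : Continuous g) (hL : ∀ x y : ℝ, ‖g x - g y‖ ≤ L * |x - y|)
    {n : ℕ} (hn : 0 < n) :
    ‖(∫ t in (0 : ℝ)..1, g t) - ∑ k ∈ Finset.range n, (1 / (n : ℂ)) * g ((k : ℝ) / n)‖ ≤ L / n := by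
  have hL0 : 0 ≤ L := by
    have := (norm_nonneg _).trans (hL 1 0)
    simpa using this
  have hn' : (0 : ℝ) < n := Nat.cast_pos.2 hn
  have h1 : (∫ t in (0 : ℝ)..1, g t) = ∑ k ∈ Finset.range n, ∫ t in ((k : ℝ) / n)..(((k + 1 : ℕ) : ℝ) / n), g t := by
    have := intervalIntegral.sum_integral_adjacent_intervals (μ := volume) (f := g) (n := n)
      (a := fun k : ℕ => (k : ℝ) / n) (fun k _ => hg.intervalIntegrable _ _)
    rw [this]
    congr 1
    · simp
    · field_simp
  rw [h1, ← Finset.sum_sub_distrib]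
  have h2 : ∀ k ∈ Finset.range n, ‖(∫ t in ((k : ℝ) / n)..(((k + 1 : ℕ) : ℝ) / n), g t)
      - (1 / (n : ℂ)) * g ((k : ℝ) / n)‖ ≤ L / n * (1 / n) := by
    intro k _
    have hk : ((k + 1 : ℕ) : ℝ) / n - (k : ℝ) / n = 1 / n := by
      push_cast
      ring
    have h3 : (1 / (n : ℂ)) * g ((k : ℝ) / n)
        = ∫ _t in ((k : ℝ) / n)..(((k + 1 : ℕ) : ℝ) / n), g ((k : ℝ) / n) := by
      rw [intervalIntegral.integral_const, hk]
      simp
    rw [h3, ← intervalIntegral.integral_sub (hg.intervalIntegrable _ _) (by simp)]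
    have h4 := intervalIntegral.norm_integral_le_of_norm_le_const (a := (k : ℝ) / n)
      (b := ((k + 1 : ℕ) : ℝ) / n) (C := L / n) (f := fun t : ℝ => g t - g ((k : ℝ) / n)) ?_
    · refine h4.trans (le_of_eq ?_)
      rw [hk, abs_of_pos (by positivity)]
    · intro t ht
      have hle : (k : ℝ) / n ≤ ((k + 1 : ℕ) : ℝ) / n := by
        have : (0 : ℝ) < 1 / n := by positivity
        linarith
      rw [uIoc_of_le hle] at ht
      refine (hL _ _).trans ?_
      rw [div_eq_mul_one_div L]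
      refine mul_le_mul_of_nonneg_left ?_ hL0
      rw [abs_of_pos (by linarith [ht.1])]
      linarith [ht.2]
  refine (norm_sum_le_of_le _ h2).trans (le_of_eq ?_)
  rw [Finset.sum_const, Finset.card_range, nsmul_eq_mul]
  field_simp

/-- invariant functionals do not see the difference between `F` and its average -/
theorem e14_inv (h9 : ST_E9) {q : ℕ} {s : ℝ} (hs : 0 < s) {α : ((Fin q → ℂ) → ℂ) → ℂ} (hα : Fnl q (St s) α)
    (hR : Rot q s α) {s1 : ℝ} (hs1 : s < s1) {F : (Fin q → ℂ) → ℂ} (hF : BO q (St s1) F) :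
    α (Av q F) = α F := by
  obtain ⟨C, hC0, hC⟩ := hα.bdd
  obtain ⟨M, hM⟩ := hF.bdd
  have hFs : BO q (St s) F := hF.mono (St_mono hs1.le)
  set ρ : ℝ := (s1 - s) / 2 with hρ
  have hρ0 : 0 < ρ := by rw [hρ]; linarith
  have hM0 : 0 ≤ M := by
    have h0 : (fun _ : Fin q => (0 : ℂ)) ∈ PU q (St s1) := fun i => by
      show |(0 : ℂ).im| < s1
      simp
      linarith
    exact (norm_nonneg _).trans (hM _ h0)
  -- Lipschitz estimate
  have hball : ∀ w ∈ PU q (St s), closedBall w ρ ⊆ PU q (St s1) := by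
    intro w hw y hy i
    rw [mem_closedBall, dist_pi_le_iff hρ0.le] at hy
    have h1 := hy i
    rw [dist_eq_norm] at h1
    have h2 : |(y i - w i).im| ≤ ρ := (Complex.abs_im_le_norm _).trans h1
    have h3 : |(w i).im| < s := hw i
    rw [Complex.sub_im, abs_le] at h2
    rw [abs_lt] at h3
    show |(y i).im| < s1
    rw [abs_lt]
    constructor <;> linarith [h2.1, h2.2, h3.1, h3.2]
  have hfd : ∀ w ∈ PU q (St s), ‖fderiv ℂ F w‖ ≤ M / ρ := fun w hw =>
    Pool.Agent.Helper38.DO.sev_bound (isOpen_PU q (isOpen_St s1)) hF.hol hρ0 (hball w hw)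
      (fun y hy => hM y (hball w hw hy))
  have hone : ‖(fun _ : Fin q => (1 : ℂ))‖ ≤ 1 := (pi_norm_le_iff_of_nonneg zero_le_one).2 fun _ => by simp
  have hLip : ∀ z ∈ PU q (St s), ∀ x y : ℝ,
      ‖F (fun i => z i + (x : ℂ)) - F (fun i => z i + (y : ℂ))‖ ≤ M / ρ * |x - y| := by
    intro z hz x y
    have h := Convex.norm_image_sub_le_of_norm_hasDerivWithin_le (𝕜 := ℝ)
      (f := fun t : ℝ => F (fun i => z i + (t : ℂ)))
      (f' := fun t : ℝ => fderiv ℂ F (fun i => z i + (t : ℂ)) (fun _ => 1)) (s := Set.univ) (C := M / ρ)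
      (x := y) (y := x) (fun t _ => (e14_hasDeriv hFs hz t).hasDerivWithinAt) ?_ convex_univ
      (Set.mem_univ _) (Set.mem_univ _)
    · simpa [Real.norm_eq_abs] using h
    · intro t _
      calc ‖fderiv ℂ F (fun i => z i + (t : ℂ)) (fun _ => 1)‖
          ≤ ‖fderiv ℂ F (fun i => z i + (t : ℂ))‖ * ‖(fun _ : Fin q => (1 : ℂ))‖ :=
            ContinuousLinearMap.le_opNorm _ _
        _ ≤ M / ρ * 1 := mul_le_mul (hfd _ (e14_PU hz t)) hone (norm_nonneg _) (by positivity)
        _ = M / ρ := mul_one _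
  -- compare with Riemann sums
  have hAv : BO q (St s) (Av q F) := e14_BO hFs
  have hn : ∀ n : ℕ, 0 < n → ‖α (Av q F) - α F‖ ≤ C * (M / ρ / n) := by
    intro n hn
    have hn' : (n : ℂ) ≠ 0 := Nat.cast_ne_zero.2 hn.ne'
    have hsh : ∀ k : ℕ, BO q (St s) (shf ((k : ℝ) / n) F) := fun k => (h9 q s ((k : ℝ) / n) hs).1 F hFs
    have hterm : ∀ k ∈ Finset.range n, BO q (St s) (fun z => (1 / (n : ℂ)) * shf ((k : ℝ) / n) F z) :=
      fun k _ => (hsh k).smul _
    have hsum : BO q (St s) (fun z => ∑ k ∈ Finset.range n, (1 / (n : ℂ)) * shf ((k : ℝ) / n) F z) :=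
      BO.sum (Finset.range n) (fun k z => (1 / (n : ℂ)) * shf ((k : ℝ) / n) F z) hterm
    have h1 : α (fun z => ∑ k ∈ Finset.range n, (1 / (n : ℂ)) * shf ((k : ℝ) / n) F z) = α F := by
      rw [hα.sum' (Finset.range n) (fun k z => (1 / (n : ℂ)) * shf ((k : ℝ) / n) F z) hterm]
      have h2 : ∀ k ∈ Finset.range n, α (fun z => (1 / (n : ℂ)) * shf ((k : ℝ) / n) F z) = (1 / (n : ℂ)) * α F := by
        intro k _
        rw [hα.smul _ _ (hsh k), hR s1 hs1 F hF]
      rw [Finset.sum_congr rfl h2, Finset.sum_const, Finset.card_range, nsmul_eq_mul]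
      field_simp
    have h3 := hC _ (hAv.sub hsum) (M / ρ / n) (fun z hz => by
      have h4 := e14_riemann (e14_cont1 hFs hz) (hLip z hz) hn
      exact h4) (by positivity)
    rw [hα.sub' hAv hsum, h1] at h3
    exact h3
  have hlim : Filter.Tendsto (fun n : ℕ => C * (M / ρ / (n : ℝ))) Filter.atTop (𝓝 (C * 0)) :=
    (tendsto_const_div_atTop_nhds_zero_nat (M / ρ)).const_mul C
  rw [mul_zero] at hlim
  have h5 : ‖α (Av q F) - α F‖ ≤ 0 := by
    refine ge_of_tendsto hlim ?_
    filter_upwards [Filter.eventually_gt_atTop 0] with n h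
    exact hn n h
  exact sub_eq_zero.1 (norm_le_zero_iff.1 h5)

theorem st_E14 (h3 : ST_E3) (h9 : ST_E9) : ST_E14 := by
  intro q s hs
  refine ⟨fun F hF => ⟨e14_BO hF, fun M hM z hz => e14_norm hM hz⟩,
    fun F G c hF hG z hz => e14_lin c hF hG hz, fun F hF z hz => e14_dd hF hz,
    fun F hF z hz => e14_wd hF hz, fun F hF t z hz => e14_shf hF t hz,
    fun F hF z hz => e14_kill h3 hF hz, fun α hα hR s1 hs1 F hF => e14_inv h9 hs hα hR hs1 hF⟩

end

end Pool.Agent.Helper67.DO
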