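import Pool.Agent.Helper67.DO.StmtsE1

/-!
# E2: `∂∂ = 0`, and the derivative of a holomorphic function of several variables is holomorphic
-/

namespace Pool.Agent.Helper67.DO

open scoped BigOperators Real Topology
open MeasureTheory Metric

noncomputable section

theorem e2_bound {n : ℕ} {F : (Fin n → ℂ) → ℂ} {w : Fin n → ℂ} {r C : ℝ} (hr : 0 < r)
    (hF : ∀ x ∈ closedBall w r, DifferentiableAt ℂ F x) (hC : ∀ x ∈ closedBall w r, ‖F x‖ ≤ C) :
    ‖fderiv ℂ F w‖ ≤ C / r := by
  have hC0 : 0 ≤ C := (norm_nonneg _).trans (hC w (mem_closedBall_self hr.le))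
  refine ContinuousLinearMap.opNorm_le_bound _ (div_nonneg hC0 hr.le) fun v => ?_
  rcases eq_or_ne v 0 with rfl | hv
  · simp
  have hv' : 0 < ‖v‖ := norm_pos_iff.2 hv
  have hR : 0 < r / ‖v‖ := div_pos hr hv'
  have hline : ∀ s : ℂ, HasDerivAt (fun s : ℂ => w + s • v) v s := by
    intro s
    simpa using ((hasDerivAt_id s).smul_const v).const_add w
  have hmem : ∀ s ∈ closedBall (0 : ℂ) (r / ‖v‖), w + s • v ∈ closedBall w r := by
    intro s hs
    rw [mem_closedBall, dist_eq_norm, sub_zero] at hs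
    rw [mem_closedBall, dist_eq_norm, add_sub_cancel_left, norm_smul]
    calc ‖s‖ * ‖v‖ ≤ r / ‖v‖ * ‖v‖ := by gcongr
      _ = r := div_mul_cancel₀ _ hv'.ne'
  have hd : ∀ s ∈ closedBall (0 : ℂ) (r / ‖v‖), DifferentiableAt ℂ (fun s : ℂ => F (w + s • v)) s := by
    intro s hs
    exact (hF _ (hmem s hs)).comp s (hline s).differentiableAt
  have h1 : ‖deriv (fun s : ℂ => F (w + s • v)) 0‖ ≤ C / (r / ‖v‖) := by
    refine Complex.norm_deriv_le_of_forall_mem_sphere_norm_le hR ?_ ?_
    · refine DifferentiableOn.diffContOnCl_ball (U := closedBall (0 : ℂ) (r / ‖v‖)) ?_ subset_rfl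
      intro s hs
      exact (hd s hs).differentiableWithinAt
    · intro s hs
      exact hC _ (hmem s (sphere_subset_closedBall hs))
  have h2 : deriv (fun s : ℂ => F (w + s • v)) 0 = fderiv ℂ F w v := by
    have h3 : HasFDerivAt F (fderiv ℂ F w) (w + (0 : ℂ) • v) := by
      rw [zero_smul, add_zero]
      exact (hF w (mem_closedBall_self hr.le)).hasFDerivAt
    exact (h3.comp_hasDerivAt (0 : ℂ) (hline 0)).deriv
  rw [h2] at h1
  calc ‖fderiv ℂ F w v‖ ≤ C / (r / ‖v‖) := h1
    _ = C / r * ‖v‖ := by field_simp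

theorem e2_partial {n : ℕ} {F : (Fin n → ℂ) → ℂ} {W : Set (Fin n → ℂ)} (hW : IsOpen W)
    (hF : DifferentiableOn ℂ F W) (v : Fin n → ℂ) (hv1 : ‖v‖ ≤ 1) : DifferentiableOn ℂ (fun z => fderiv ℂ F z v) W := by
  intro z0 hz0
  obtain ⟨R, hR, hball⟩ := Metric.isOpen_iff.1 hW z0 hz0
  set r : ℝ := R / 4 with hr
  have hr0 : 0 < r := by positivity
  have hsub : closedBall z0 (3 * r) ⊆ W := fun x hx => hball (by
    rw [mem_ball]; rw [mem_closedBall] at hx; rw [hr] at hx; linarith)
  have hd : ∀ x ∈ closedBall z0 (3 * r), DifferentiableAt ℂ F x := fun x hx =>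
    hF.differentiableAt (hW.mem_nhds (hsub hx))
  have hcpt : IsCompact (closedBall z0 (3 * r)) := isCompact_closedBall _ _
  obtain ⟨C, hC⟩ := hcpt.exists_bound_of_continuousOn (f := F) (fun x hx => (hd x hx).continuousAt.continuousWithinAt)
  -- points z + s v
  have hmem : ∀ z ∈ ball z0 r, ∀ s : ℂ, ‖s‖ ≤ r → z + s • v ∈ closedBall z0 (2 * r) := by
    intro z hz s hs
    rw [mem_closedBall, dist_eq_norm]
    rw [mem_ball, dist_eq_norm] at hz
    calc ‖z + s • v - z0‖ = ‖(z - z0) + s • v‖ := by congr 1; abel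
      _ ≤ ‖z - z0‖ + ‖s • v‖ := norm_add_le _ _
      _ ≤ r + r * 1 := by
        rw [norm_smul]
        gcongr
      _ = 2 * r := by ring
  have h32 : closedBall z0 (2 * r) ⊆ closedBall z0 (3 * r) := closedBall_subset_closedBall (by linarith)
  have hcm : ∀ θ : ℝ, ‖circleMap 0 r θ‖ = r := by
    intro θ
    rw [norm_circleMap_zero, abs_of_pos hr0]
  set c : ℝ → ℂ := fun θ => (2 * π * Complex.I : ℂ)⁻¹ * (deriv (circleMap 0 r) θ * ((circleMap 0 r θ - 0) ^ 2)⁻¹) with hc
  have hline : ∀ z : Fin n → ℂ, ∀ s : ℂ, HasDerivAt (fun s : ℂ => z + s • v) v s := by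
    intro z s
    simpa using ((hasDerivAt_id s).smul_const v).const_add z
  have hcauchy : ∀ z ∈ ball z0 r, fderiv ℂ F z v
      = ∫ θ in (0 : ℝ)..2 * π, c θ * F (z + circleMap 0 r θ • v) := by
    intro z hz
    have hU : IsOpen ((fun s : ℂ => z + s • v) ⁻¹' W) := hW.preimage (by fun_prop)
    have h1 := Complex.two_pi_I_inv_smul_circleIntegral_sub_sq_inv_smul_of_differentiable hU (c := 0) (w₀ := 0)
      (R := r) (f := fun s : ℂ => F (z + s • v)) (fun s hs => hsub (h32 (hmem z hz s (by
        rw [mem_closedBall, dist_eq_norm, sub_zero] at hs; exact hs))))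
      (fun s hs => ((hF.differentiableAt (hW.mem_nhds hs)).comp s (hline z s).differentiableAt).differentiableWithinAt)
      (mem_ball_self hr0)
    have h2 : deriv (fun s : ℂ => F (z + s • v)) 0 = fderiv ℂ F z v := by
      have h3 : HasFDerivAt F (fderiv ℂ F z) (z + (0 : ℂ) • v) := by
        rw [zero_smul, add_zero]
        exact (hd z (closedBall_subset_closedBall (by linarith) (ball_subset_closedBall hz))).hasFDerivAt
      exact (h3.comp_hasDerivAt (0 : ℂ) (hline z 0)).deriv
    rw [← h2, ← h1, circleIntegral, ← intervalIntegral.integral_smul]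
    refine intervalIntegral.integral_congr fun θ _ => ?_
    simp only [smul_eq_mul, hc]
    ring
  have hccont : Continuous c := by
    rw [hc]
    refine continuous_const.mul (Continuous.mul ?_ (Continuous.inv₀ ?_ ?_))
    · have : deriv (circleMap 0 r) = fun θ => circleMap 0 r θ * Complex.I := funext fun θ => deriv_circleMap _ _ _
      rw [this]
      fun_prop
    · fun_prop
    · intro θ
      have : circleMap 0 r θ ≠ 0 := by
        rw [← norm_pos_iff, hcm]; exact hr0
      simpa using this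
  have hFc : ∀ z ∈ ball z0 r, Continuous (fun θ : ℝ => F (z + circleMap 0 r θ • v)) := by
    intro z hz
    rw [continuous_iff_continuousAt]
    intro θ
    have h1 : ContinuousAt F (z + circleMap 0 r θ • v) :=
      (hd _ (h32 (hmem z hz _ (hcm θ).le))).continuousAt
    exact ContinuousAt.comp (f := fun θ : ℝ => z + circleMap 0 r θ • v) h1 (by fun_prop)
  obtain ⟨B, hB⟩ : ∃ B : ℝ, ∀ θ, ‖c θ‖ ≤ B := by
    refine ⟨‖(2 * π * Complex.I : ℂ)⁻¹‖ * (r * (r ^ 2)⁻¹), fun θ => ?_⟩
    rw [hc]
    simp only [norm_mul, norm_inv, norm_pow, deriv_circleMap, sub_zero, hcm, Complex.norm_I, mul_one]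
    exact le_rfl
  have hint : HasFDerivAt (fun z => ∫ θ in (0 : ℝ)..2 * π, c θ * F (z + circleMap 0 r θ • v))
      (∫ θ in (0 : ℝ)..2 * π, c θ • fderiv ℂ F (z0 + circleMap 0 r θ • v)) z0 := by
    refine intervalIntegral.hasFDerivAt_integral_of_dominated_of_fderiv_le (s := ball z0 r) (bound := fun _ => B * (C / r))
      (F' := fun z θ => c θ • fderiv ℂ F (z + circleMap 0 r θ • v)) (ball_mem_nhds z0 hr0) ?_ ?_ ?_ ?_ ?_ ?_
    · filter_upwards [ball_mem_nhds z0 hr0] with z hz
      exact (hccont.mul (hFc z hz)).aestronglyMeasurable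
    · exact (hccont.mul (hFc z0 (mem_ball_self hr0))).intervalIntegrable _ _
    · have h1 : Measurable (fun θ : ℝ => fderiv ℂ F (z0 + circleMap 0 r θ • v)) :=
        (measurable_fderiv ℂ F).comp (by fun_prop)
      exact (hccont.measurable.smul h1).aestronglyMeasurable
    · refine Filter.Eventually.of_forall fun θ _ z hz => ?_
      rw [norm_smul]
      have h1 : ‖fderiv ℂ F (z + circleMap 0 r θ • v)‖ ≤ C / r := by
        have h2 : closedBall (z + circleMap 0 r θ • v) r ⊆ closedBall z0 (3 * r) := by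
          refine closedBall_subset_closedBall' ?_
          have := hmem z hz _ (hcm θ).le
          rw [mem_closedBall] at this
          linarith
        exact e2_bound hr0 (fun x hx => hd x (h2 hx)) (fun x hx => hC x (h2 hx))
      have hB0 : 0 ≤ B := (norm_nonneg _).trans (hB 0)
      gcongr
      exact hB θ
    · exact intervalIntegrable_const
    · refine Filter.Eventually.of_forall fun θ _ z hz => ?_
      have h1 : HasFDerivAt F (fderiv ℂ F (z + circleMap 0 r θ • v)) (z + circleMap 0 r θ • v) :=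
        (hd _ (h32 (hmem z hz _ (hcm θ).le))).hasFDerivAt
      have h2 : HasFDerivAt (fun z : Fin n → ℂ => z + circleMap 0 r θ • v) (ContinuousLinearMap.id ℂ (Fin n → ℂ)) z :=
        (hasFDerivAt_id z).add_const _
      have h3 := h1.comp z h2
      rw [ContinuousLinearMap.comp_id] at h3
      exact h3.const_mul (c θ)
  have hev : (fun z => fderiv ℂ F z v) =ᶠ[𝓝 z0] fun z => ∫ θ in (0 : ℝ)..2 * π, c θ * F (z + circleMap 0 r θ • v) := by
    filter_upwards [ball_mem_nhds z0 hr0] with z hz
    exact hcauchy z hz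
  exact (hint.congr_of_eventuallyEq hev).differentiableAt.differentiableWithinAt

/-- the derivative of a holomorphic function is holomorphic -/
theorem e2_fderiv {n : ℕ} {F : (Fin n → ℂ) → ℂ} {W : Set (Fin n → ℂ)} (hW : IsOpen W)
    (hF : DifferentiableOn ℂ F W) : DifferentiableOn ℂ (fderiv ℂ F) W := by
  have h1 : ∀ z, fderiv ℂ F z = ∑ i : Fin n, (fderiv ℂ F z (Pi.single i 1)) • ContinuousLinearMap.proj (R := ℂ) (φ := fun _ : Fin n => ℂ) i := by
    intro z
    ext v
    have hv : v = ∑ i : Fin n, v i • (Pi.single i (1 : ℂ) : Fin n → ℂ) := by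
      ext j
      simp [Finset.sum_apply, Pi.single_apply]
    conv_lhs => rw [hv]
    rw [map_sum, sum_apply]
    refine Finset.sum_congr rfl fun i _ => ?_
    rw [map_smul, smul_apply, ContinuousLinearMap.proj_apply, smul_eq_mul, smul_eq_mul, mul_comm]
  have h2 : (fderiv ℂ F) = fun z => ∑ i : Fin n, (fderiv ℂ F z (Pi.single i 1)) • ContinuousLinearMap.proj (R := ℂ) (φ := fun _ : Fin n => ℂ) i :=
    funext h1
  rw [h2]
  refine DifferentiableOn.fun_sum fun i _ => ?_
  refine DifferentiableOn.smul_const (e2_partial hW hF _ ?_) _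
  refine (pi_norm_le_iff_of_nonneg zero_le_one).2 fun j => ?_
  rcases eq_or_ne j i with rfl | hj
  · simp
  · rw [Pi.single_eq_of_ne hj]; simp

theorem e2_pa {m : ℕ} (k : Fin m) (j : Fin (m + 1)) :
    ((k.predAbove j : Fin m) : ℕ) = if (j : ℕ) ≤ k then (j : ℕ) else (j : ℕ) - 1 := by
  unfold Fin.predAbove
  split_ifs with h1 h2 h2
  · rw [Fin.lt_def] at h1; simp at h1; omega
  · simp
  · simp
  · rw [Fin.lt_def] at h1; simp at h1; omega

theorem e2_f1 {q : ℕ} (i k : Fin q) (h : i < k) (j : Fin (q + 2)) :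
    i.predAbove (k.succ.predAbove j) = k.predAbove (i.castSucc.predAbove j) := by
  have h' : (i : ℕ) < k := h
  apply Fin.ext
  simp only [e2_pa, Fin.val_succ, Fin.val_castSucc]
  split_ifs <;> omega

theorem e2_f2 {q : ℕ} (i : Fin q) (j : Fin (q + 2)) :
    i.predAbove (i.succ.predAbove j) = i.predAbove (i.castSucc.predAbove j) := by
  apply Fin.ext
  simp only [e2_pa, Fin.val_succ, Fin.val_castSucc]
  split_ifs <;> omega

theorem e2_single {m : ℕ} (a : Fin m) (b : Fin (m + 1)) (σ : Fin (m + 1) → Fin m)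
    (h : ∀ j, σ j = a ↔ j = b) : (fun j => (Pi.single a (1 : ℂ) : Fin m → ℂ) (σ j)) = Pi.single b 1 := by
  funext j
  by_cases hj : j = b
  · subst hj
    rw [Pi.single_eq_same, (h j).2 rfl, Pi.single_eq_same]
  · rw [Pi.single_eq_of_ne hj, Pi.single_eq_of_ne fun h2 => hj ((h j).1 h2)]

theorem e2_e1 {q : ℕ} (i k : Fin q) (h : i < k) :
    (fun j => (Pi.single i.succ (1 : ℂ) : Fin (q + 1) → ℂ) (k.succ.predAbove j)) = Pi.single i.castSucc.succ 1 := by
  have h' : (i : ℕ) < k := h
  refine e2_single _ _ _ fun j => ?_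
  rw [Fin.ext_iff, Fin.ext_iff, e2_pa]
  simp only [Fin.val_succ, Fin.val_castSucc]
  split_ifs <;> omega

theorem e2_e2 {q : ℕ} (i k : Fin q) (h : i < k) :
    (fun j => (Pi.single k.succ (1 : ℂ) : Fin (q + 1) → ℂ) (i.castSucc.predAbove j)) = Pi.single k.succ.succ 1 := by
  have h' : (i : ℕ) < k := h
  refine e2_single _ _ _ fun j => ?_
  rw [Fin.ext_iff, Fin.ext_iff, e2_pa]
  simp only [Fin.val_succ, Fin.val_castSucc]
  split_ifs <;> omega

theorem e2_e3 {q : ℕ} (i : Fin q) :
    (fun j => (Pi.single i.succ (1 : ℂ) : Fin (q + 1) → ℂ) (i.castSucc.predAbove j)) = Pi.single i.succ.succ 1 := by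
  refine e2_single _ _ _ fun j => ?_
  rw [Fin.ext_iff, Fin.ext_iff, e2_pa]
  simp only [Fin.val_succ, Fin.val_castSucc]
  split_ifs <;> omega

theorem e2_e4 {q : ℕ} (i : Fin q) :
    (fun j => (Pi.single i.succ (1 : ℂ) : Fin (q + 1) → ℂ) (i.succ.predAbove j))
      = Pi.single i.castSucc.succ 1 + Pi.single i.succ.succ 1 := by
  funext j
  rw [Pi.add_apply]
  rcases eq_or_ne j i.castSucc.succ with h1 | h1
  · have h2 : i.succ.predAbove j = i.succ := by
      rw [Fin.ext_iff, e2_pa]
      rw [h1]; simp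
    have h3 : j ≠ i.succ.succ := by rw [h1, Ne, Fin.ext_iff]; simp
    rw [h2, Pi.single_eq_same, h1, Pi.single_eq_same, ← h1, Pi.single_eq_of_ne h3, add_zero]
  · rcases eq_or_ne j i.succ.succ with h2 | h2
    · have h4 : i.succ.predAbove j = i.succ := by
        rw [Fin.ext_iff, e2_pa]
        rw [h2]; simp
      rw [h4, Pi.single_eq_same, Pi.single_eq_of_ne h1, h2, Pi.single_eq_same, zero_add]
    · have h4 : i.succ.predAbove j ≠ i.succ := by
        rw [Ne, Fin.ext_iff, e2_pa]
        rw [Ne, Fin.ext_iff] at h1 h2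
        simp only [Fin.val_succ, Fin.val_castSucc] at h1 h2 ⊢
        split_ifs <;> omega
      rw [Pi.single_eq_of_ne h1, Pi.single_eq_of_ne h2, Pi.single_eq_of_ne h4, add_zero]

theorem e2_ins {m : ℕ} (k : Fin m) (w : Fin m → ℂ) (s : ℂ) :
    (k.succ.insertNth s w : Fin (m + 1) → ℂ) = Function.update (fun j => w (k.predAbove j)) k.succ s := by
  rw [Fin.insertNth_eq_iff]
  refine ⟨by rw [Function.update_self], ?_⟩
  funext j
  rw [Fin.removeNth, Function.update_of_ne (Fin.succAbove_ne _ _)]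
  congr 1
  rw [Fin.ext_iff, e2_pa]
  by_cases h : j.castSucc < k.succ
  · rw [Fin.succAbove_of_castSucc_lt _ _ h]
    rw [Fin.lt_def] at h
    simp at h
    simp; omega
  · rw [Fin.succAbove_of_le_castSucc _ _ (not_lt.1 h)]
    rw [Fin.lt_def] at h
    simp at h
    simp; omega

theorem e2_sa1 {q : ℕ} (i k : Fin q) (h : i ≤ k) : i.castSucc.succAbove k = k.succ := by
  rw [Fin.succAbove_of_le_castSucc]
  rw [Fin.le_def] at h ⊢
  simpa using h

theorem e2_sa2 {q : ℕ} (i k : Fin q) (h : i < k) : k.castSucc.succAbove i = i.castSucc := by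
  rw [Fin.succAbove_of_castSucc_lt]
  rw [Fin.lt_def] at h ⊢
  simpa using h

theorem e2_isOpen_PU {m : ℕ} {U : Set ℂ} (hU : IsOpen U) : IsOpen (PU m U) := by
  have : PU m U = ⋂ i, (fun z : Fin m → ℂ => z i) ⁻¹' U := by
    ext z; simp [PU]
  rw [this]
  exact isOpen_iInter_of_finite fun i => hU.preimage (continuous_apply i)

/-- value of `dd` through the Frechet derivative -/
theorem e2_dd {m : ℕ} {U : Set ℂ} (hU : IsOpen U) {F : (Fin (m + 1) → ℂ) → ℂ}
    (hF : DifferentiableOn ℂ F (PU (m + 1) U)) (w : Fin m → ℂ) (hw : w ∈ PU m U) :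
    dd m F w = ∑ k : Fin m, (-1 : ℂ) ^ (k : ℕ) *
      fderiv ℂ F (fun j => w (k.predAbove j)) (Pi.single k.succ 1) := by
  unfold dd
  refine Finset.sum_congr rfl fun k _ => ?_
  congr 1
  have h1 : (fun t : ℂ => F (k.succ.insertNth t w)) = fun t => F (Function.update (fun j => w (k.predAbove j)) k.succ t) :=
    funext fun t => by rw [e2_ins]
  rw [h1]
  have h2 : w (k.predAbove k.succ) = w k := by
    congr 1
    rw [Fin.ext_iff, e2_pa]
    simp
  have h3 : Function.update (fun j => w (k.predAbove j)) k.succ (w k) = fun j => w (k.predAbove j) := by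
    rw [← h2]
    exact Function.update_eq_self k.succ (fun j => w (k.predAbove j))
  have h4 : HasFDerivAt F (fderiv ℂ F (fun j => w (k.predAbove j)))
      (Function.update (fun j => w (k.predAbove j)) k.succ (w k)) := by
    rw [h3]
    exact (hF.differentiableAt ((e2_isOpen_PU hU).mem_nhds fun j => hw _)).hasFDerivAt
  exact (h4.comp_hasDerivAt (w k) (hasDerivAt_update (fun j => w (k.predAbove j)) k.succ (w k))).deriv

/-- a function which vanishes when two entries agree -/
theorem e2_alt {m : ℕ} {U : Set ℂ} {F : (Fin m → ℂ) → ℂ} (hF : BO m U F) (z : Fin m → ℂ) (hz : z ∈ PU m U)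
    (a b : Fin m) (hab : a ≠ b) (h : z a = z b) : F z = 0 := by
  have h1 := hF.alt z hz (Equiv.swap a b)
  have h2 : (fun i => z (Equiv.swap a b i)) = z := by
    funext i
    rcases eq_or_ne i a with rfl | ha
    · rw [Equiv.swap_apply_left, h]
    · rcases eq_or_ne i b with rfl | hb
      · rw [Equiv.swap_apply_right, h]
      · rw [Equiv.swap_apply_of_ne_of_ne ha hb]
  rw [h2, Equiv.Perm.sign_swap hab] at h1
  push_cast at h1
  have h3 : (2 : ℂ) * F z = 0 := by linear_combination h1
  exact (mul_eq_zero.1 h3).resolve_left two_ne_zero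

theorem e2_symm {m : ℕ} {W : Set (Fin m → ℂ)} (hW : IsOpen W) {F : (Fin m → ℂ) → ℂ} (hF : DifferentiableOn ℂ F W)
    {P : Fin m → ℂ} (hP : P ∈ W) (u v : Fin m → ℂ) :
    fderiv ℂ (fderiv ℂ F) P u v = fderiv ℂ (fderiv ℂ F) P v u := by
  have h1 : ∀ᶠ y in 𝓝 P, HasFDerivAt F (fderiv ℂ F y) y := by
    filter_upwards [hW.mem_nhds hP] with y hy
    exact (hF.differentiableAt (hW.mem_nhds hy)).hasFDerivAt
  have h2 : HasFDerivAt (fderiv ℂ F) (fderiv ℂ (fderiv ℂ F) P) P :=
    ((e2_fderiv hW hF).differentiableAt (hW.mem_nhds hP)).hasFDerivAt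
  exact second_derivative_symmetric_of_eventually h1 h2 u v

/-- `T(i,k)` -/
def e2_T {q : ℕ} (F : (Fin (q + 2) → ℂ) → ℂ) (z : Fin q → ℂ) (i : Fin q) (k : Fin (q + 1)) : ℂ :=
  (-1 : ℂ) ^ (i : ℕ) * ((-1 : ℂ) ^ (k : ℕ) *
    fderiv ℂ (fderiv ℂ F) (fun j => z (i.predAbove (k.predAbove j)))
      (fun j => (Pi.single i.succ (1 : ℂ) : Fin (q + 1) → ℂ) (k.predAbove j)) (Pi.single k.succ 1))

theorem e2_outer {q : ℕ} {U : Set ℂ} (hU : IsOpen U) {F : (Fin (q + 2) → ℂ) → ℂ}
    (hF : DifferentiableOn ℂ F (PU (q + 2) U)) (z : Fin q → ℂ) (hz : z ∈ PU q U) :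
    dd q (dd (q + 1) F) z = ∑ i : Fin q, ∑ k : Fin (q + 1), e2_T F z i k := by
  have hW := e2_isOpen_PU (m := q + 2) hU
  rw [dd]
  refine Finset.sum_congr rfl fun i _ => ?_
  unfold e2_T
  rw [← Finset.mul_sum]
  congr 1
  -- near `z i`
  have hev : (fun t : ℂ => dd (q + 1) F (i.succ.insertNth t z)) =ᶠ[𝓝 (z i)]
      fun t => ∑ k : Fin (q + 1), (-1 : ℂ) ^ (k : ℕ) *
        fderiv ℂ F (fun j => (Function.update (fun j => z (i.predAbove j)) i.succ t) (k.predAbove j)) (Pi.single k.succ 1) := by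
    filter_upwards [hU.mem_nhds (hz i)] with t ht
    rw [e2_ins]
    refine e2_dd hU hF _ fun j => ?_
    rcases eq_or_ne j i.succ with rfl | hj
    · rw [Function.update_self]; exact ht
    · rw [Function.update_of_ne hj]; exact hz _
  rw [hev.deriv_eq]
  have h2 : z (i.predAbove i.succ) = z i := by
    congr 1
    rw [Fin.ext_iff, e2_pa]
    simp
  have h3 : Function.update (fun j => z (i.predAbove j)) i.succ (z i) = fun j => z (i.predAbove j) := by
    rw [← h2]
    exact Function.update_eq_self i.succ (fun j => z (i.predAbove j))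
  have hd : ∀ k : Fin (q + 1), HasDerivAt (fun t : ℂ => (-1 : ℂ) ^ (k : ℕ) *
        fderiv ℂ F (fun j => (Function.update (fun j => z (i.predAbove j)) i.succ t) (k.predAbove j)) (Pi.single k.succ 1))
      ((-1 : ℂ) ^ (k : ℕ) *
        fderiv ℂ (fderiv ℂ F) (fun j => z (i.predAbove (k.predAbove j)))
          (fun j => (Pi.single i.succ (1 : ℂ) : Fin (q + 1) → ℂ) (k.predAbove j)) (Pi.single k.succ 1)) (z i) := by
    intro k
    refine HasDerivAt.const_mul _ ?_
    have h4 : HasDerivAt (fun t : ℂ => fun j => (Function.update (fun j => z (i.predAbove j)) i.succ t) (k.predAbove j))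
        (fun j => (Pi.single i.succ (1 : ℂ) : Fin (q + 1) → ℂ) (k.predAbove j)) (z i) := by
      rw [hasDerivAt_pi]
      intro j
      exact (hasDerivAt_pi.1 (hasDerivAt_update (fun j => z (i.predAbove j)) i.succ (z i))) (k.predAbove j)
    have h5 : HasFDerivAt (fderiv ℂ F) (fderiv ℂ (fderiv ℂ F) (fun j => z (i.predAbove (k.predAbove j))))
        (fun j => (Function.update (fun j => z (i.predAbove j)) i.succ (z i)) (k.predAbove j)) := by
      rw [h3]
      exact ((e2_fderiv hW hF).differentiableAt (hW.mem_nhds fun j => hz _)).hasFDerivAt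
    have h6 := h5.comp_hasDerivAt (z i) h4
    have h7 := ((ContinuousLinearMap.apply ℂ ℂ (Pi.single k.succ (1 : ℂ) : Fin (q + 2) → ℂ)).hasFDerivAt
      (x := fderiv ℂ F (fun j => (Function.update (fun j => z (i.predAbove j)) i.succ (z i)) (k.predAbove j)))).comp_hasDerivAt (z i) h6
    exact h7
  exact (HasDerivAt.fun_sum fun k _ => hd k).deriv

/-- second derivative in one direction at a degenerate point -/
theorem e2_diag {q : ℕ} {U : Set ℂ} (hU : IsOpen U) {F : (Fin (q + 2) → ℂ) → ℂ} (hF : BO (q + 2) U F)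
    (P : Fin (q + 2) → ℂ) (hP : P ∈ PU (q + 2) U) (a b c : Fin (q + 2)) (hab : a ≠ b) (hac : a ≠ c) (hbc : b ≠ c)
    (h : P a = P b) : fderiv ℂ (fderiv ℂ F) P (Pi.single c 1) (Pi.single c 1) = 0 := by
  have hW := e2_isOpen_PU (m := q + 2) hU
  have hup : ∀ t ∈ U, Function.update P c t ∈ PU (q + 2) U := by
    intro t ht j
    rcases eq_or_ne j c with rfl | hj
    · rw [Function.update_self]; exact ht
    · rw [Function.update_of_ne hj]; exact hP _
  have h0 : ∀ t ∈ U, F (Function.update P c t) = 0 := by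
    intro t ht
    refine e2_alt hF _ (hup t ht) a b hab ?_
    rw [Function.update_of_ne hac, Function.update_of_ne hbc, h]
  have h1 : ∀ t ∈ U, fderiv ℂ F (Function.update P c t) (Pi.single c 1) = 0 := by
    intro t ht
    have h2 : HasFDerivAt F (fderiv ℂ F (Function.update P c t)) (Function.update P c t) :=
      (hF.hol.differentiableAt (hW.mem_nhds (hup t ht))).hasFDerivAt
    have h3 := h2.comp_hasDerivAt t (hasDerivAt_update P c t)
    have h4 : (F ∘ Function.update P c) =ᶠ[𝓝 t] fun _ => 0 := by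
      filter_upwards [hU.mem_nhds ht] with s hs
      exact h0 s hs
    have h5 : HasDerivAt (F ∘ Function.update P c) 0 t := (hasDerivAt_const t (0 : ℂ)).congr_of_eventuallyEq h4
    exact h3.unique h5
  have hPc : Function.update P c (P c) = P := Function.update_eq_self _ _
  have h6 : HasFDerivAt (fderiv ℂ F) (fderiv ℂ (fderiv ℂ F) P) (Function.update P c (P c)) := by
    rw [hPc]
    exact ((e2_fderiv hW hF.hol).differentiableAt (hW.mem_nhds hP)).hasFDerivAt
  have h7 := h6.comp_hasDerivAt (P c) (hasDerivAt_update P c (P c))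
  have h8 := ((ContinuousLinearMap.apply ℂ ℂ (Pi.single c (1 : ℂ) : Fin (q + 2) → ℂ)).hasFDerivAt
      (x := fderiv ℂ F (Function.update P c (P c)))).comp_hasDerivAt (P c) h7
  have h9 : (fun t : ℂ => fderiv ℂ F (Function.update P c t) (Pi.single c 1)) =ᶠ[𝓝 (P c)] fun _ => 0 := by
    filter_upwards [hU.mem_nhds (hP c)] with s hs
    exact h1 s hs
  have h10 : HasDerivAt (fun t : ℂ => fderiv ℂ F (Function.update P c t) (Pi.single c 1)) 0 (P c) :=
    (hasDerivAt_const (P c) (0 : ℂ)).congr_of_eventuallyEq h9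
  exact HasDerivAt.unique h8 h10

/-- E2 -/
theorem st_E2 : ST_E2 := by
  intro q U hU _ F hF z hz
  have hW := e2_isOpen_PU (m := q + 2) hU
  rw [e2_outer hU hF.hol z hz]
  -- split off the diagonal
  have h1 : ∀ i : Fin q, ∑ k : Fin (q + 1), e2_T F z i k
      = ∑ k : Fin q, ((if i = k then e2_T F z i i.castSucc + e2_T F z i i.succ else 0)
        + (if i < k then e2_T F z i k.succ else 0) + (if k < i then e2_T F z i k.castSucc else 0)) := by
    intro i
    rw [Fin.sum_univ_succAbove _ i.castSucc]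
    have h2 : ∀ k : Fin q, ((if i = k then e2_T F z i i.castSucc + e2_T F z i i.succ else 0)
        + (if i < k then e2_T F z i k.succ else 0) + (if k < i then e2_T F z i k.castSucc else 0))
        = (if i = k then e2_T F z i i.castSucc else 0) + e2_T F z i (i.castSucc.succAbove k) := by
      intro k
      rcases lt_trichotomy i k with h | h | h
      · rw [if_neg h.ne, if_pos h, if_neg (not_lt.2 h.le), if_neg h.ne, e2_sa1 i k h.le]; ring
      · subst h
        rw [if_pos rfl, if_neg (lt_irrefl _), if_neg (lt_irrefl _), if_pos rfl, e2_sa1 i i le_rfl]; ring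
      · rw [if_neg h.ne', if_neg (not_lt.2 h.le), if_pos h, if_neg h.ne', e2_sa2 k i h]; ring
    rw [Finset.sum_congr rfl fun k _ => h2 k, Finset.sum_add_distrib, Finset.sum_ite_eq, if_pos (Finset.mem_univ _)]
  rw [Finset.sum_congr rfl fun i _ => h1 i]
  simp only [Finset.sum_add_distrib]
  have hA : ∑ i : Fin q, ∑ k : Fin q, (if i = k then e2_T F z i i.castSucc + e2_T F z i i.succ else 0) = 0 := by
    refine Finset.sum_eq_zero fun i _ => Finset.sum_eq_zero fun k _ => ?_
    split_ifs with hik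
    · have hPP : (fun j => z (i.predAbove (i.succ.predAbove j))) = fun j => z (i.predAbove (i.castSucc.predAbove j)) := by
        funext j; rw [e2_f2]
      unfold e2_T
      rw [e2_e3, e2_e4, hPP]
      set P : Fin (q + 2) → ℂ := fun j => z (i.predAbove (i.castSucc.predAbove j)) with hPdef
      have hPmem : P ∈ PU (q + 2) U := fun j => hz _
      rw [map_add, add_apply, e2_symm hW hF.hol hPmem (Pi.single i.succ.succ 1) (Pi.single i.castSucc.succ 1)]
      have hd := e2_diag hU hF P hPmem i.castSucc.castSucc i.castSucc.succ i.succ.succ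
        (by rw [Ne, Fin.ext_iff]; simp) (by rw [Ne, Fin.ext_iff]; simp; omega) (by rw [Ne, Fin.ext_iff]; simp)
        (by
          rw [hPdef]
          simp only
          congr 1
          rw [Fin.ext_iff, e2_pa, e2_pa, e2_pa, e2_pa]
          simp)
      rw [hd, Fin.val_castSucc, Fin.val_succ, pow_succ]
      ring
    · rfl
  have hB : ∑ i : Fin q, ∑ k : Fin q, (if i < k then e2_T F z i k.succ else 0)
      + ∑ i : Fin q, ∑ k : Fin q, (if k < i then e2_T F z i k.castSucc else 0) = 0 := by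
    rw [Finset.sum_comm (f := fun i k => if k < i then e2_T F z i k.castSucc else 0), ← Finset.sum_add_distrib]
    refine Finset.sum_eq_zero fun i _ => ?_
    rw [← Finset.sum_add_distrib]
    refine Finset.sum_eq_zero fun k _ => ?_
    split_ifs with hik
    · have hPP : (fun j => z (i.predAbove (k.succ.predAbove j))) = fun j => z (k.predAbove (i.castSucc.predAbove j)) := by
        funext j; rw [e2_f1 i k hik]
      unfold e2_T
      rw [e2_e1 i k hik, e2_e2 i k hik, hPP]
      set P : Fin (q + 2) → ℂ := fun j => z (k.predAbove (i.castSucc.predAbove j)) with hPdef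
      have hPmem : P ∈ PU (q + 2) U := fun j => hz _
      rw [e2_symm hW hF.hol hPmem (Pi.single k.succ.succ 1) (Pi.single i.castSucc.succ 1), Fin.val_castSucc,
        Fin.val_succ, pow_succ]
      ring
    · rw [add_zero]
  rw [hA, zero_add, hB]

end

end Pool.Agent.Helper67.DO
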