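import Pool.Agent.Helper67.DO.BaseD
import Pool.Agent.Helper27.DO.T3
import Pool.Agent.Helper39.DO.T7

/-!
# T11: patching (2.5)
-/

namespace Pool.Agent.Helper67.DO

open scoped BigOperators Real Topology

noncomputable section

/-! ### level cochains: coboundaries -/

theorem t11_LC_rm {n p : ℕ} {C : Sq → ℂ} (hC : LC n p C) (i : ℕ) : LC n (p + 1) (fun y => C (rm i y)) where
  dep := by
    intro y y' h
    refine hC.dep _ _ fun k hk => ?_
    unfold rm
    split_ifs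
    · exact h k (by omega)
    · exact h (k + 1) (by omega)
  uc := by
    intro ε hε
    obtain ⟨δ, hδ, h⟩ := hC.uc ε hε
    refine ⟨δ, hδ, fun y y' hy hy' hd => h _ _ (fun k => rm_mem hy k) (fun k => rm_mem hy' k) fun k hk x => ?_⟩
    unfold rm
    split_ifs
    · exact hd k (by omega) x
    · exact hd (k + 1) (by omega) x
  zinv := by
    intro y t hy
    have h := hC.zinv (rm i y) (fun k => if k < i then t k else t (k + 1)) (fun k => rm_mem hy k)
    rw [← h]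
    congr 1
    funext k x
    unfold rm
    split_ifs <;> rfl
  rinv := by
    intro y g hg hy hyg
    have h := hC.rinv (rm i y) g hg (fun k => rm_mem hy k) (fun k => by
      have := rm_mem (i := i) hyg k
      have e : (fun x => rm i y k (g x)) = rm i (fun k x => y k (g x)) k := by
        unfold rm
        split_ifs <;> rfl
      rw [e]; exact this)
    rw [← h]
    congr 1
    funext k x
    unfold rm
    split_ifs <;> rfl

theorem t11_LC_zero (n p : ℕ) : LC n p (fun _ => 0) where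
  dep := fun _ _ _ => rfl
  uc := fun ε hε => ⟨1, one_pos, fun _ _ _ _ _ => by simpa using hε.le⟩
  zinv := fun _ _ _ => rfl
  rinv := fun _ _ _ _ _ => rfl

theorem t11_LC_sum {n p : ℕ} (S : Finset ℕ) (C : ℕ → Sq → ℂ) (h : ∀ i ∈ S, LC n p (C i)) :
    LC n p (fun y => ∑ i ∈ S, C i y) := by
  classical
  induction S using Finset.induction_on with
  | empty => simpa using t11_LC_zero n p
  | insert a S ha ih =>
    have h1 : (fun y => ∑ i ∈ insert a S, C i y) = fun y => C a y + ∑ i ∈ S, C i y := by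
      funext y
      rw [Finset.sum_insert ha]
    rw [h1]
    exact (h a (Finset.mem_insert_self _ _)).add (ih fun i hi => h i (Finset.mem_insert_of_mem hi))

theorem t11_LC_dlt {n p : ℕ} {C : Sq → ℂ} (hC : LC n p C) : LC n (p + 1) (dlt p C) := by
  have := t11_LC_sum (n := n) (p := p + 1) (Finset.range (p + 2)) (fun i y => (-1 : ℂ) ^ i * C (rm i y))
    (fun i _ => (t11_LC_rm hC i).smul _)
  exact this

theorem t11_cobd_contOn (h3 : ST_T3) (h8 : ST_T8) {n p : ℕ} (hn : 1 ≤ n) {c : (Fin p → DiffOmega) → ℝ}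
    (hc : ContinuousOn c (EE n p)) (hlift : ∀ Φ ∈ AA n, IsLift Φ) : ContinuousOn (cobd p c) (EE n (p + 1)) := by
  have h1 := t11_LC_dlt (h8.1 n p c hn hc)
  obtain ⟨b, hb, hb'⟩ := h8.2 n (p + 1) _ hn h1
  refine hb.congr ?_
  rintro g ⟨y, hy, rfl⟩
  rw [hb' y hy, h3.1 p c y (fun k => hlift _ (hy k))]
  rfl

theorem t11_AA_lift {n : ℕ} {Φ : ℝ → ℝ} (h : Φ ∈ AA n) : IsLift Φ := h.1

theorem t11_cobd_cont (h3 : ST_T3) (h7 : ST_T7) (h8 : ST_T8) {p : ℕ} {c : (Fin p → DiffOmega) → ℝ}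
    (hc : Continuous c) : Continuous (cobd p c) :=
  h7.1 _ _ fun _ hn => t11_cobd_contOn h3 h8 hn hc.continuousOn fun _ h => t11_AA_lift h

/-! ### faces and linearity of `cobd` -/

theorem t11_faces {n p : ℕ} {g : Fin (p + 1) → DiffOmega} (hg : g ∈ EE n (p + 1)) :
    (fun i => g i.succ) ∈ EE n p ∧ ∀ j : Fin (p + 1), Fin.contractNth j (· * ·) g ∈ EE n p := by
  obtain ⟨y, hy, rfl⟩ := hg
  refine ⟨⟨rm 0 y, fun k => rm_mem hy k, (t3_prQ_zero p y).symm⟩, fun j => ?_⟩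
  exact ⟨rm ((j : ℕ) + 1) y, fun k => rm_mem hy k, (t3_prQ_succ p y j).symm⟩

theorem t11_cobd_congr {n p : ℕ} {b b' : (Fin p → DiffOmega) → ℝ} (h : ∀ g ∈ EE n p, b g = b' g)
    {g : Fin (p + 1) → DiffOmega} (hg : g ∈ EE n (p + 1)) : cobd p b g = cobd p b' g := by
  have hf := t11_faces hg
  unfold cobd
  rw [h _ hf.1, Finset.sum_congr rfl fun j _ => by rw [h _ (hf.2 j)]]

theorem t11_cobd_add (p : ℕ) (b b' : (Fin p → DiffOmega) → ℝ) (g : Fin (p + 1) → DiffOmega) :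
    cobd p (fun g => b g + b' g) g = cobd p b g + cobd p b' g := by
  unfold cobd
  rw [Finset.sum_congr rfl fun j _ => mul_add _ _ _, Finset.sum_add_distrib]
  ring

theorem t11_cobd_smul (p : ℕ) (x : ℝ) (b : (Fin p → DiffOmega) → ℝ) (g : Fin (p + 1) → DiffOmega) :
    cobd p (fun g => x * b g) g = x * cobd p b g := by
  unfold cobd
  rw [mul_add, Finset.mul_sum]
  congr 1
  refine Finset.sum_congr rfl fun j _ => ?_
  ring

theorem t11_cobd_sub (p : ℕ) (b b' : (Fin p → DiffOmega) → ℝ) (g : Fin (p + 1) → DiffOmega) :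
    cobd p (fun g => b g - b' g) g = cobd p b g - cobd p b' g := by
  have h : (fun g => b g - b' g) = fun g => b g + (-1) * b' g := by funext g; ring
  rw [h, t11_cobd_add, t11_cobd_smul]
  ring

theorem t11_cobd_zero (p : ℕ) (g : Fin (p + 1) → DiffOmega) : cobd p (fun _ => 0) g = 0 := by
  unfold cobd
  simp

theorem t11_cobd_sum (p : ℕ) (k : ℕ) (b : ℕ → (Fin p → DiffOmega) → ℝ) (g : Fin (p + 1) → DiffOmega) :
    cobd p (fun g => ∑ j ∈ Finset.range k, b j g) g = ∑ j ∈ Finset.range k, cobd p (b j) g := by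
  induction k with
  | zero => simpa using t11_cobd_zero p g
  | succ k ih =>
    have h : (fun g => ∑ j ∈ Finset.range (k + 1), b j g) = fun g => ∑ j ∈ Finset.range k, b j g + b k g := by
      funext g
      rw [Finset.sum_range_succ]
    rw [h, t11_cobd_add, ih, Finset.sum_range_succ]

/-! ### correction property -/

/-- a cocycle at a fine level is, at level `n`, the restriction of a continuous cocycle -/
def t11_Q (p : ℕ) : Prop := ∀ n : ℕ, 1 ≤ n → ∃ n' : ℕ, n ≤ n' ∧ ∀ β : (Fin p → DiffOmega) → ℝ,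
  ContinuousOn β (EE n' p) → (∀ g ∈ EE n' (p + 1), cobd p β g = 0) →
    ∃ γ : (Fin p → DiffOmega) → ℝ, Continuous γ ∧ (∀ g, cobd p γ g = 0) ∧ ∀ g ∈ EE n p, β g = γ g

theorem t11_Q0 : t11_Q 0 := by
  intro n hn
  refine ⟨n, le_rfl, fun β _ _ => ⟨β, ?_, fun g => ?_, fun _ _ => rfl⟩⟩
  · exact continuous_of_const fun x y => by rw [Subsingleton.elim x y]
  · unfold cobd
    rw [Fin.sum_univ_one, Subsingleton.elim (Fin.contractNth 0 (· * ·) g) (fun i => g i.succ)]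
    simp

theorem t11_Qodd (h3 : ST_T3) (h7 : ST_T7) (h8 : ST_T8) (m : ℕ) (ho : STo m) : t11_Q (2 * m + 1) := by
  intro n hn
  obtain ⟨n', hnn', h⟩ := ho n hn
  refine ⟨n', hnn', fun β hβ hcoc => ?_⟩
  obtain ⟨b, hb, hb'⟩ := h β hβ hcoc
  obtain ⟨B, hB, hBb⟩ := h7.2 n (2 * m) b hn hb
  refine ⟨cobd (2 * m) B, t11_cobd_cont h3 h7 h8 hB, fun g => ?_, fun g hg => ?_⟩
  · have := h3.2.2.2.2.2 (2 * m) B
    exact congrFun this g
  · rw [hb' g hg]
    exact (t11_cobd_congr hBb hg).symm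

theorem t11_Qeven (h3 : ST_T3) (h7 : ST_T7) (h8 : ST_T8) (h9 : ST_T9) (m : ℕ) (he : STe m) :
    t11_Q (2 * m + 2) := by
  intro n hn
  obtain ⟨n', hnn', h⟩ := he n hn
  refine ⟨n', hnn', fun β hβ hcoc => ?_⟩
  obtain ⟨x, y, b, hb, hb'⟩ := h β hβ hcoc
  obtain ⟨B, hB, hBb⟩ := h7.2 n (2 * m + 1) b hn hb
  have hc1 : Continuous (cupPow eul (m + 1)) := h9.2.2.2.2.1 (m + 1)
  have hc2 : Continuous (cupPow gvc (m + 1)) := h9.2.2.2.2.2.1 (m + 1)
  have hz1 : cobd (2 * (m + 1)) (cupPow eul (m + 1)) = 0 := h9.2.2.2.2.2.2.1 (m + 1)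
  have hz2 : cobd (2 * (m + 1)) (cupPow gvc (m + 1)) = 0 := h9.2.2.2.2.2.2.2 (m + 1)
  refine ⟨fun g => x * cupPow eul (m + 1) g + y * cupPow gvc (m + 1) g + cobd (2 * m + 1) B g, ?_, fun g => ?_, fun g hg => ?_⟩
  · exact ((continuous_const.mul hc1).add (continuous_const.mul hc2)).add (t11_cobd_cont h3 h7 h8 hB)
  · have e1 : cobd (2 * m + 2) (fun g => x * cupPow eul (m + 1) g + y * cupPow gvc (m + 1) g + cobd (2 * m + 1) B g) g
        = x * cobd (2 * m + 2) (cupPow eul (m + 1)) g + y * cobd (2 * m + 2) (cupPow gvc (m + 1)) g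
          + cobd (2 * m + 2) (cobd (2 * m + 1) B) g := by
      rw [t11_cobd_add (2 * m + 2) (fun g => x * cupPow eul (m + 1) g + y * cupPow gvc (m + 1) g),
        t11_cobd_add (2 * m + 2) (fun g => x * cupPow eul (m + 1) g), t11_cobd_smul, t11_cobd_smul]
    rw [e1]
    have e2 : cobd (2 * m + 2) (cupPow eul (m + 1)) g = 0 := congrFun hz1 g
    have e3 : cobd (2 * m + 2) (cupPow gvc (m + 1)) g = 0 := congrFun hz2 g
    have e4 : cobd (2 * m + 2) (cobd (2 * m + 1) B) g = 0 := congrFun (h3.2.2.2.2.2 (2 * m + 1) B) g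
    rw [e2, e3, e4]
    ring
  · rw [hb' g hg]
    show _ = x * cupPow eul (m + 1) g + y * cupPow gvc (m + 1) g + cobd (2 * m + 1) B g
    rw [t11_cobd_congr hBb hg]

/-! ### patching -/

theorem t11_patch (h1 : ST_T1) (h2 : ST_D2) (h5 : ST_T5) (h7 : ST_T7) (p : ℕ) (hQ : t11_Q p)
    (c : (Fin (p + 1) → DiffOmega) → ℝ)
    (hc : ∀ n : ℕ, 1 ≤ n → ∃ b : (Fin p → DiffOmega) → ℝ, ContinuousOn b (EE n p) ∧
      ∀ g ∈ EE n (p + 1), c g = cobd p b g) :
    ∃ b : (Fin p → DiffOmega) → ℝ, Continuous b ∧ ∀ g, c g = cobd p b g := by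
  classical
  choose! f hf1 hf2 using hQ
  choose! B hB1 hB2 using hc
  have hmono : ∀ n m q : ℕ, 1 ≤ n → n ≤ m → EE n q ⊆ EE m q := fun n m q => h5.2.2.2.1 n m q
  -- levels
  set N : ℕ → ℕ := fun k => Nat.rec 1 (fun _ N => max (f N) (N + 1)) k with hNdef
  have hNs : ∀ k, N (k + 1) = max (f (N k)) (N k + 1) := fun k => rfl
  have hN1 : ∀ k, k + 1 ≤ N k := by
    intro k
    induction k with
    | zero => exact le_rfl
    | succ k ih =>
      rw [hNs]
      exact le_trans (by omega) (le_max_right _ _)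
  have hN1' : ∀ k, 1 ≤ N k := fun k => le_trans (by omega) (hN1 k)
  have hNstep : ∀ k, N k ≤ N (k + 1) := fun k => by rw [hNs]; exact le_trans (by omega) (le_max_right _ _)
  have hNmono : Monotone N := monotone_nat_of_le_succ hNstep
  have hNf : ∀ k, f (N k) ≤ N (k + 1) := fun k => by rw [hNs]; exact le_max_left _ _
  have hf1' : ∀ k, 1 ≤ f (N k) := fun k => le_trans (hN1' k) (hf1 (N k) (hN1' k))
  -- corrections
  have hγ : ∀ k, ∃ γ : (Fin p → DiffOmega) → ℝ, Continuous γ ∧ (∀ g, cobd p γ g = 0) ∧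
      ∀ g ∈ EE (N k) p, B (N (k + 2)) g - B (N (k + 1)) g = γ g := by
    intro k
    refine hf2 (N k) (hN1' k) (fun g => B (N (k + 2)) g - B (N (k + 1)) g) ?_ ?_
    · refine ContinuousOn.sub ?_ ?_
      · exact (hB1 (N (k + 2)) (hN1' (k + 2))).mono (hmono _ (N (k + 2)) _ (hf1' k) ((hNf k).trans (hNstep (k + 1))))
      · exact (hB1 (N (k + 1)) (hN1' (k + 1))).mono (hmono _ (N (k + 1)) _ (hf1' k) (hNf k))
    · intro g hg
      rw [t11_cobd_sub, ← hB2 (N (k + 2)) (hN1' (k + 2)) g (hmono _ (N (k + 2)) _ (hf1' k) ((hNf k).trans (hNstep (k + 1))) hg),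
        ← hB2 (N (k + 1)) (hN1' (k + 1)) g (hmono _ (N (k + 1)) _ (hf1' k) (hNf k) hg), sub_self]
  choose γ hγ1 hγ2 hγ3 using hγ
  set β : ℕ → (Fin p → DiffOmega) → ℝ := fun k g => B (N (k + 1)) g - ∑ j ∈ Finset.range k, γ j g with hβ
  have hβc : ∀ k, ContinuousOn (β k) (EE (N k) p) := by
    intro k
    refine ContinuousOn.sub ?_ ?_
    · exact (hB1 (N (k + 1)) (hN1' (k + 1))).mono (hmono (N k) (N (k + 1)) _ (hN1' k) (hNstep k))
    · exact (continuous_finsetSum _ fun j _ => hγ1 j).continuousOn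
  have hβs : ∀ k, ∀ g ∈ EE (N k) p, β (k + 1) g = β k g := by
    intro k g hg
    have h := hγ3 k g hg
    simp only [hβ]
    rw [Finset.sum_range_succ]
    linarith
  have hβm : ∀ k l, ∀ g ∈ EE (N k) p, β (k + l) g = β k g := by
    intro k l g hg
    induction l with
    | zero => rfl
    | succ l ih =>
      rw [← add_assoc, hβs (k + l) g (hmono _ _ _ (hN1' k) (hNmono (Nat.le_add_right k l)) hg), ih]
  have hcov : ∀ (q : ℕ) (g : Fin q → DiffOmega), ∃ k, g ∈ EE (N k) q := by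
    intro q g
    obtain ⟨k, hk⟩ := t7_coverEE h1 h2 h5 1 q le_rfl g
    refine ⟨k, hmono _ _ _ (by omega) ?_ hk⟩
    have := hN1 k
    omega
  set b : (Fin p → DiffOmega) → ℝ := fun g => β (Nat.find (hcov p g)) g with hb
  have hbk : ∀ k, ∀ g ∈ EE (N k) p, b g = β k g := by
    intro k g hg
    have hle : Nat.find (hcov p g) ≤ k := Nat.find_min' (hcov p g) hg
    obtain ⟨l, hl⟩ := Nat.exists_eq_add_of_le hle
    have := hβm (Nat.find (hcov p g)) l g (Nat.find_spec (hcov p g))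
    rw [← hl] at this
    exact this.symm
  refine ⟨b, h7.1 p b fun n hn => ?_, fun g => ?_⟩
  · have hle : n ≤ N n := le_trans (by omega) (hN1 n)
    exact ((hβc n).mono (hmono _ _ _ hn hle)).congr fun g hg => hbk n g (hmono _ _ _ hn hle hg)
  · obtain ⟨k, hk⟩ := hcov (p + 1) g
    rw [t11_cobd_congr (fun g hg => hbk k g hg) hk]
    have e : β k = fun g => B (N (k + 1)) g - (fun g => ∑ j ∈ Finset.range k, γ j g) g := rfl
    rw [e, t11_cobd_sub, t11_cobd_sum, Finset.sum_eq_zero fun j _ => hγ2 j g, sub_zero,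
      ← hB2 (N (k + 1)) (hN1' (k + 1)) g (hmono (N k) (N (k + 1)) (p + 1) (hN1' k) (hNstep k) hk)]

/-! ### constant coefficients -/

/-- combinations of the cup powers which are coboundaries at level `n` -/
def t11_V (m n : ℕ) : Submodule ℝ (ℝ × ℝ) where
  carrier := {v | ∃ b : (Fin (2 * m + 1) → DiffOmega) → ℝ, ContinuousOn b (EE n (2 * m + 1)) ∧
    ∀ g ∈ EE n (2 * m + 2), v.1 * cupPow eul (m + 1) g + v.2 * cupPow gvc (m + 1) g = cobd (2 * m + 1) b g}
  add_mem' := by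
    rintro v w ⟨b, hb, hb'⟩ ⟨b2, hb2, hb2'⟩
    refine ⟨fun g => b g + b2 g, hb.add hb2, fun g hg => ?_⟩
    rw [t11_cobd_add, ← hb' g hg, ← hb2' g hg, Prod.fst_add, Prod.snd_add]
    ring
  zero_mem' := ⟨fun _ => 0, continuousOn_const, fun g _ => by rw [t11_cobd_zero]; simp⟩
  smul_mem' := by
    rintro x v ⟨b, hb, hb'⟩
    refine ⟨fun g => x * b g, continuousOn_const.mul hb, fun g hg => ?_⟩
    rw [t11_cobd_smul, ← hb' g hg, Prod.smul_fst, Prod.smul_snd, smul_eq_mul, smul_eq_mul]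
    ring

theorem t11_const (h5 : ST_T5) (m : ℕ) (he : STe m) (c : (Fin (2 * m + 2) → DiffOmega) → ℝ) (hc : Continuous c)
    (hcoc : cobd (2 * m + 2) c = 0) : ∃ x y : ℝ, ∀ n : ℕ, 1 ≤ n → ∃ b : (Fin (2 * m + 1) → DiffOmega) → ℝ,
      ContinuousOn b (EE n (2 * m + 1)) ∧ ∀ g ∈ EE n (2 * m + 2),
        c g = x * cupPow eul (m + 1) g + y * cupPow gvc (m + 1) g + cobd (2 * m + 1) b g := by
  have hmono : ∀ n m q : ℕ, 1 ≤ n → n ≤ m → EE n q ⊆ EE m q := fun n m q => h5.2.2.2.1 n m q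
  have hS : ∀ n : ℕ, 1 ≤ n → ∃ (x y : ℝ) (b : (Fin (2 * m + 1) → DiffOmega) → ℝ),
      ContinuousOn b (EE n (2 * m + 1)) ∧ ∀ g ∈ EE n (2 * m + 2),
        c g = x * cupPow eul (m + 1) g + y * cupPow gvc (m + 1) g + cobd (2 * m + 1) b g := by
    intro n hn
    obtain ⟨n', -, h⟩ := he n hn
    exact h c hc.continuousOn fun g _ => congrFun hcoc g
  choose! x y b hb1 hb2 using hS
  have hanti : Antitone fun k => t11_V m (k + 1) := by
    intro k l hkl v hv
    obtain ⟨B, hB, hB'⟩ := hv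
    exact ⟨B, hB.mono (hmono _ _ _ (by omega) (by omega)), fun g hg => hB' g (hmono _ _ _ (by omega) (by omega) hg)⟩
  obtain ⟨k0, hk0⟩ := IsArtinian.monotone_stabilizes (R := ℝ) (M := ℝ × ℝ)
    ⟨fun k => OrderDual.toDual (t11_V m (k + 1)), fun k l hkl => hanti hkl⟩
  have hk0' : ∀ l, k0 ≤ l → t11_V m (k0 + 1) = t11_V m (l + 1) := fun l hl => hk0 l hl
  refine ⟨x (k0 + 1), y (k0 + 1), fun n hn => ?_⟩
  set M := max n (k0 + 1) with hM
  have hM1 : 1 ≤ M := le_trans hn (le_max_left _ _)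
  have hM0 : k0 + 1 ≤ M := le_max_right _ _
  have hnM : n ≤ M := le_max_left _ _
  have hv : (x (k0 + 1) - x M, y (k0 + 1) - y M) ∈ t11_V m (k0 + 1) := by
    refine ⟨fun g => b M g - b (k0 + 1) g, ?_, fun g hg => ?_⟩
    · exact ((hb1 M hM1).mono (hmono _ _ _ (by omega) hM0)).sub (hb1 (k0 + 1) (by omega))
    · have e1 := hb2 M hM1 g (hmono _ _ _ (by omega) hM0 hg)
      have e2 := hb2 (k0 + 1) (by omega) g hg
      rw [t11_cobd_sub]
      simp only
      linarith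
  rw [hk0' (M - 1) (by omega), show M - 1 + 1 = M by omega] at hv
  obtain ⟨β, hβ, hβ'⟩ := hv
  refine ⟨fun g => b M g - β g, (((hb1 M hM1).sub hβ).mono (hmono _ _ _ hn hnM)), fun g hg => ?_⟩
  have hgM := hmono _ _ _ hn hnM hg
  have e1 := hb2 M hM1 g hgM
  have e2 := hβ' g hgM
  rw [t11_cobd_sub]
  simp only at e2
  linarith

/-- T11 -/
theorem st_T11 (h1 : ST_T1) (hd2 : ST_D2) (h2 : ST_T2) (h3 : ST_T3) (h5 : ST_T5) (h7 : ST_T7) (h8 : ST_T8)
    (h9 : ST_T9) : ST_T11 := by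
  intro he ho
  refine ⟨h2.1, h2.2.1, h2.2.2, h9.1, h9.2.1, h9.2.2.1, h9.2.2.2.1, ?_, ?_⟩
  · intro m c hc hcoc
    obtain ⟨x, y, h⟩ := t11_const h5 m (he m) c hc hcoc
    obtain ⟨b, hb, hb'⟩ := t11_patch h1 hd2 h5 h7 (2 * m + 1) (t11_Qodd h3 h7 h8 m (ho m))
      (fun g => c g - (x * cupPow eul (m + 1) g + y * cupPow gvc (m + 1) g)) (fun n hn => by
        obtain ⟨b, hb, hb'⟩ := h n hn
        exact ⟨b, hb, fun g hg => by rw [hb' g hg]; ring⟩)
    refine ⟨x, y, b, hb, fun g => ?_⟩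
    rw [← hb' g]
    ring
  · intro m c hc hcoc
    have hQ : t11_Q (2 * m) := by
      rcases m with _ | m
      · exact t11_Q0
      · exact t11_Qeven h3 h7 h8 h9 m (he m)
    obtain ⟨b, hb, hb'⟩ := t11_patch h1 hd2 h5 h7 (2 * m) hQ c (fun n hn => by
        obtain ⟨n', -, h⟩ := ho m n hn
        exact h c hc.continuousOn fun g _ => congrFun hcoc g)
    exact ⟨b, hb, funext hb'⟩

end

end Pool.Agent.Helper67.DO
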